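import Mathlib

/-! The values of a product of three quadratic forms near the axis. -/

set_option autoImplicit false

namespace Pool.Agent.TH562.R2

/-- the form -/
def FR (h a b c u v : ℝ) : ℝ := h * ((u ^ 2 - a * v ^ 2) * (u ^ 2 - b * v ^ 2) * (u ^ 2 - c * v ^ 2))

/-- the integral form -/
def FZ (h : ℕ) (a b c : ℤ) (u v : ℕ) : ℤ :=
  h * (((u : ℤ) ^ 2 - a * (v : ℤ) ^ 2) * ((u : ℤ) ^ 2 - b * (v : ℤ) ^ 2) *
    ((u : ℤ) ^ 2 - c * (v : ℤ) ^ 2))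

theorem FZ_cast (h : ℕ) (a b c : ℤ) (u v : ℕ) : (FZ h a b c u v : ℝ) = FR h a b c u v := by
  unfold FZ FR; push_cast; ring

theorem FZ_zero (h : ℕ) (a b c : ℤ) (u : ℕ) : FZ h a b c u 0 = h * (u : ℤ) ^ 6 := by
  unfold FZ; push_cast; ring

section
variable {h a b c η : ℝ}

theorem tail_le (hη0 : 0 ≤ η) (hη1 : η ≤ 1)
    (hη : (|a * b + b * c + c * a| + |a * b * c|) * η ≤ 1 / 2) {u v : ℝ} (hu : 0 ≤ u)
    (hv : 0 ≤ v) (hvu : v ≤ η * u) :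
    |(a * b + b * c + c * a) * (u ^ 2 * v ^ 4) - a * b * c * v ^ 6| ≤ 1 / 2 * (u ^ 4 * v ^ 2) := by
  have hvu1 : v ≤ u := hvu.trans (by nlinarith)
  have h1 := abs_sub ((a * b + b * c + c * a) * (u ^ 2 * v ^ 4)) (a * b * c * v ^ 6)
  refine h1.trans ?_
  rw [abs_mul (a * b + b * c + c * a) (u ^ 2 * v ^ 4), abs_mul (a * b * c) (v ^ 6),
    abs_of_nonneg (by positivity : 0 ≤ u ^ 2 * v ^ 4), abs_of_nonneg (by positivity : 0 ≤ v ^ 6)]
  have e1 : u ^ 2 * v ^ 4 ≤ η * (u ^ 4 * v ^ 2) := by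
    calc u ^ 2 * v ^ 4 = u ^ 2 * v ^ 2 * v * v := by ring
      _ ≤ u ^ 2 * v ^ 2 * (η * u) * u := by gcongr
      _ = η * (u ^ 4 * v ^ 2) := by ring
  have e2 : v ^ 6 ≤ η * (u ^ 4 * v ^ 2) := by
    calc v ^ 6 = v ^ 2 * v * v ^ 3 := by ring
      _ ≤ v ^ 2 * (η * u) * u ^ 3 := by gcongr
      _ = η * (u ^ 4 * v ^ 2) := by ring
  have e3 := mul_le_mul_of_nonneg_left e1 (abs_nonneg (a * b + b * c + c * a))
  have e4 := mul_le_mul_of_nonneg_left e2 (abs_nonneg (a * b * c))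
  have e5 := mul_le_mul_of_nonneg_right hη (by positivity : 0 ≤ u ^ 4 * v ^ 2)
  have e6 : (|a * b + b * c + c * a| + |a * b * c|) * η * (u ^ 4 * v ^ 2) =
    |a * b + b * c + c * a| * (η * (u ^ 4 * v ^ 2)) + |a * b * c| * (η * (u ^ 4 * v ^ 2)) := by ring
  linarith

theorem FR_expand (u v : ℝ) : FR h a b c u v = h * (u ^ 6 - (a + b + c) * (u ^ 4 * v ^ 2) +
    ((a * b + b * c + c * a) * (u ^ 2 * v ^ 4) - a * b * c * v ^ 6)) := by
  unfold FR; ring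

theorem F_upper (hh : 0 ≤ h) (hη0 : 0 ≤ η) (hη1 : η ≤ 1)
    (hη : (|a * b + b * c + c * a| + |a * b * c|) * η ≤ 1 / 2) (hσ : 1 ≤ a + b + c) {u v : ℝ}
    (hu : 0 ≤ u) (hv : 0 ≤ v) (hvu : v ≤ η * u) :
    FR h a b c u v ≤ h * (u ^ 6 - 1 / 2 * (u ^ 4 * v ^ 2)) := by
  rw [FR_expand]
  have h1 := (abs_le.1 (tail_le hη0 hη1 hη hu hv hvu)).2
  have h2 := mul_le_mul_of_nonneg_right hσ (by positivity : 0 ≤ u ^ 4 * v ^ 2)
  apply mul_le_mul_of_nonneg_left _ hh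
  linarith

theorem F_lower (hh : 0 ≤ h) (hη0 : 0 ≤ η) (hη1 : η ≤ 1)
    (hη : (|a * b + b * c + c * a| + |a * b * c|) * η ≤ 1 / 2) (hσ : a + b + c ≤ -1) {u v : ℝ}
    (hu : 0 ≤ u) (hv : 0 ≤ v) (hvu : v ≤ η * u) :
    h * (u ^ 6 + 1 / 2 * (u ^ 4 * v ^ 2)) ≤ FR h a b c u v := by
  rw [FR_expand]
  have h1 := (abs_le.1 (tail_le hη0 hη1 hη hu hv hvu)).1
  have h2 := mul_le_mul_of_nonneg_right hσ (by positivity : 0 ≤ u ^ 4 * v ^ 2)
  apply mul_le_mul_of_nonneg_left _ hh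
  linarith

/-- the constant in the bound for differences -/
noncomputable def S1 (a b c : ℝ) : ℝ := |a + b + c| + 2 * |a * b + b * c + c * a| + 3 * |a * b * c|

theorem F_diff (hh : 0 ≤ h) {u v q : ℝ} (hv : 0 ≤ v) (hq : 0 ≤ q) (hvu : v + q ≤ u) :
    |FR h a b c u (v + q) - FR h a b c u v| ≤ h * S1 a b c * u ^ 4 * (q * (2 * v + q)) := by
  have hu : 0 ≤ u := by linarith
  set t := q * (2 * v + q) with ht
  have ht0 : 0 ≤ t := by rw [ht]; positivity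
  have e : FR h a b c u (v + q) - FR h a b c u v = h * (-((a + b + c) * (u ^ 4 * t)) +
    (a * b + b * c + c * a) * (u ^ 2 * (t * ((v + q) ^ 2 + v ^ 2))) -
    a * b * c * (t * ((v + q) ^ 4 + (v + q) ^ 2 * v ^ 2 + v ^ 4))) := by
    unfold FR; rw [ht]; ring
  rw [e, abs_mul, abs_of_nonneg hh]
  have hw : (v + q) ^ 2 ≤ u ^ 2 := pow_le_pow_left₀ (by linarith) hvu 2
  have hv2 : v ^ 2 ≤ u ^ 2 := pow_le_pow_left₀ hv (by linarith) 2
  have g1 : (v + q) ^ 2 + v ^ 2 ≤ 2 * u ^ 2 := by linarith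
  have g2 : (v + q) ^ 4 + (v + q) ^ 2 * v ^ 2 + v ^ 4 ≤ 3 * u ^ 4 := by
    have k1 : (v + q) ^ 2 * (v + q) ^ 2 ≤ u ^ 2 * u ^ 2 :=
      mul_le_mul hw hw (by positivity) (by positivity)
    have k2 : (v + q) ^ 2 * v ^ 2 ≤ u ^ 2 * u ^ 2 := mul_le_mul hw hv2 (by positivity) (by positivity)
    have k3 : v ^ 2 * v ^ 2 ≤ u ^ 2 * u ^ 2 := mul_le_mul hv2 hv2 (by positivity) (by positivity)
    nlinarith
  have b1 : |(a + b + c) * (u ^ 4 * t)| = |a + b + c| * (u ^ 4 * t) := by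
    rw [abs_mul, abs_of_nonneg (by positivity : 0 ≤ u ^ 4 * t)]
  have b2 : |(a * b + b * c + c * a) * (u ^ 2 * (t * ((v + q) ^ 2 + v ^ 2)))| ≤
      |a * b + b * c + c * a| * (2 * (u ^ 4 * t)) := by
    rw [abs_mul, abs_of_nonneg (by positivity : 0 ≤ u ^ 2 * (t * ((v + q) ^ 2 + v ^ 2)))]
    apply mul_le_mul_of_nonneg_left _ (abs_nonneg _)
    calc u ^ 2 * (t * ((v + q) ^ 2 + v ^ 2)) ≤ u ^ 2 * (t * (2 * u ^ 2)) := by gcongr
      _ = 2 * (u ^ 4 * t) := by ring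
  have b3 : |a * b * c * (t * ((v + q) ^ 4 + (v + q) ^ 2 * v ^ 2 + v ^ 4))| ≤
      |a * b * c| * (3 * (u ^ 4 * t)) := by
    rw [abs_mul (a * b * c), abs_of_nonneg
      (by positivity : 0 ≤ t * ((v + q) ^ 4 + (v + q) ^ 2 * v ^ 2 + v ^ 4))]
    apply mul_le_mul_of_nonneg_left _ (abs_nonneg _)
    calc t * ((v + q) ^ 4 + (v + q) ^ 2 * v ^ 2 + v ^ 4) ≤ t * (3 * u ^ 4) := by gcongr
      _ = 3 * (u ^ 4 * t) := by ring
  have b4 := abs_sub (-((a + b + c) * (u ^ 4 * t)) +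
    (a * b + b * c + c * a) * (u ^ 2 * (t * ((v + q) ^ 2 + v ^ 2))))
    (a * b * c * (t * ((v + q) ^ 4 + (v + q) ^ 2 * v ^ 2 + v ^ 4)))
  have b5 := abs_add_le (-((a + b + c) * (u ^ 4 * t)))
    ((a * b + b * c + c * a) * (u ^ 2 * (t * ((v + q) ^ 2 + v ^ 2))))
  rw [abs_neg, b1] at b5
  have b6 : h * S1 a b c * u ^ 4 * t = h * (|a + b + c| * (u ^ 4 * t) +
    |a * b + b * c + c * a| * (2 * (u ^ 4 * t)) + |a * b * c| * (3 * (u ^ 4 * t))) := by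
    unfold S1; ring
  rw [b6]
  apply mul_le_mul_of_nonneg_left _ hh
  linarith

end

/-- discrete intermediate value, downwards -/
theorem div_down (g : ℕ → ℤ) (x : ℤ) (J : ℕ) (h0 : x < g 0) (hJ : g J ≤ x) :
    ∃ j < J, x < g j ∧ g (j + 1) ≤ x := by
  classical
  have hex : ∃ k, g k ≤ x := ⟨J, hJ⟩
  have h1 := Nat.find_spec hex
  have h2 := fun j (hj : j < Nat.find hex) => Nat.find_min hex hj
  have h3 : Nat.find hex ≤ J := Nat.find_min' hex hJ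
  have h4 : 0 < Nat.find hex := by
    rcases Nat.eq_zero_or_pos (Nat.find hex) with h | h
    · rw [h] at h1; omega
    · exact h
  refine ⟨Nat.find hex - 1, by omega, ?_, ?_⟩
  · have := h2 (Nat.find hex - 1) (by omega)
    omega
  · have : Nat.find hex - 1 + 1 = Nat.find hex := by omega
    rw [this]; exact h1

/-- discrete intermediate value, upwards -/
theorem div_up (g : ℕ → ℤ) (x : ℤ) (J : ℕ) (h0 : g 0 ≤ x) (hJ : x < g J) :
    ∃ j < J, g j ≤ x ∧ x < g (j + 1) := by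
  classical
  have hex : ∃ k, x < g k := ⟨J, hJ⟩
  have h1 := Nat.find_spec hex
  have h2 := fun j (hj : j < Nat.find hex) => Nat.find_min hex hj
  have h3 : Nat.find hex ≤ J := Nat.find_min' hex hJ
  have h4 : 0 < Nat.find hex := by
    rcases Nat.eq_zero_or_pos (Nat.find hex) with h | h
    · rw [h] at h1; omega
    · exact h
  refine ⟨Nat.find hex - 1, by omega, ?_, ?_⟩
  · have := h2 (Nat.find hex - 1) (by omega)
    omega
  · have : Nat.find hex - 1 + 1 = Nat.find hex := by omega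
    rw [this]; exact h1

theorem cover {h : ℕ} {a b c : ℤ} {η : ℝ} (hh : 1 ≤ h) (hη0 : 0 ≤ η) (hη1 : η ≤ 1)
    (hη : (|(a : ℝ) * b + b * c + c * a| + |(a : ℝ) * b * c|) * η ≤ 1 / 2) (hσ : a + b + c ≠ 0)
    {Q : ℕ} (hQ : 0 < Q) (Jf : ℕ → ℕ) (i0 : ℕ)
    (hi0 : ∀ i, i0 ≤ i → 5 * (Q : ℝ) ≤ ((1 + Q * i : ℕ) : ℝ) ∧
      (Q : ℝ) * Jf i ≤ η * ((1 + Q * i : ℕ) : ℝ) ∧
      24 * ((1 + Q * i : ℕ) : ℝ) ≤ Q * (Jf i : ℝ) ^ 2)
    {x : ℤ} (hx : FZ h a b c (1 + Q * i0) (Q * 0) ≤ x) :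
    ∃ i j j' : ℕ, i0 ≤ i ∧ (j' = j + 1 ∨ j = j' + 1) ∧ j ≤ Jf i ∧ j' ≤ Jf i ∧
      FZ h a b c (1 + Q * i) (Q * j') ≤ x ∧ x < FZ h a b c (1 + Q * i) (Q * j) ∧
      (h : ℝ) * (((1 + Q * i : ℕ) : ℝ) - Q) ^ 6 ≤ x := by
  have hQ' : (0 : ℝ) < Q := by exact_mod_cast hQ
  have hQ1 : (1 : ℝ) ≤ Q := by exact_mod_cast hQ
  have hh' : (1 : ℝ) ≤ h := by exact_mod_cast hh
  have hh0 : (0 : ℝ) ≤ h := by linarith
  have hzero : ∀ i, FZ h a b c (1 + Q * i) (Q * 0) = h * ((1 + Q * i : ℕ) : ℤ) ^ 6 := by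
    intro i
    rw [Nat.mul_zero, FZ_zero]
  -- existence of a row above x
  have hex : ∃ i, i0 ≤ i ∧ x < FZ h a b c (1 + Q * i) (Q * 0) := by
    refine ⟨i0 + x.toNat + 1, by omega, ?_⟩
    rw [hzero]
    have h1 : x < ((1 + Q * (i0 + x.toNat + 1) : ℕ) : ℤ) := by
      have : x.toNat + 1 ≤ Q * (i0 + x.toNat + 1) := by
        have : 1 * (i0 + x.toNat + 1) ≤ Q * (i0 + x.toNat + 1) := Nat.mul_le_mul_right _ hQ
        omega
      omega
    have h2 : ((1 + Q * (i0 + x.toNat + 1) : ℕ) : ℤ) ≤ ((1 + Q * (i0 + x.toNat + 1) : ℕ) : ℤ) ^ 6 :=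
      le_self_pow₀ (by push_cast; nlinarith [Int.natCast_nonneg Q, Int.natCast_nonneg (i0 + x.toNat + 1)])
        (by norm_num)
    have h3 : ((1 + Q * (i0 + x.toNat + 1) : ℕ) : ℤ) ^ 6 ≤
      h * ((1 + Q * (i0 + x.toNat + 1) : ℕ) : ℤ) ^ 6 := by
      have h4 : (1 : ℤ) ≤ h := by exact_mod_cast hh
      have h5 : 0 ≤ ((1 + Q * (i0 + x.toNat + 1) : ℕ) : ℤ) ^ 6 := by positivity
      nlinarith
    omega
  classical
  obtain ⟨i, ⟨hi1, hi2⟩, hmin⟩ : ∃ i, (i0 ≤ i ∧ x < FZ h a b c (1 + Q * i) (Q * 0)) ∧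
      ∀ j < i, ¬ (i0 ≤ j ∧ x < FZ h a b c (1 + Q * j) (Q * 0)) :=
    ⟨Nat.find hex, Nat.find_spec hex, fun j hj => Nat.find_min hex hj⟩
  have hi3 : i0 < i := by
    rcases Nat.lt_or_ge i0 i with h | h
    · exact h
    · exfalso
      have : i = i0 := by omega
      subst this
      omega
  obtain ⟨k, rfl⟩ : ∃ k, i = k + 1 := ⟨i - 1, by omega⟩
  have hk : i0 ≤ k := by omega
  have hprev : FZ h a b c (1 + Q * k) (Q * 0) ≤ x := by
    have := hmin k (by omega)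
    push Not at this
    exact this hk
  have hsp : ((1 + Q * (k + 1) : ℕ) : ℝ) - Q = ((1 + Q * k : ℕ) : ℝ) := by push_cast; ring
  have hprevR : (h : ℝ) * (((1 + Q * k : ℕ) : ℝ)) ^ 6 ≤ x := by
    rw [hzero] at hprev
    exact_mod_cast hprev
  have hnextR : (x : ℝ) < (h : ℝ) * (((1 + Q * (k + 1) : ℕ) : ℝ)) ^ 6 := by
    rw [hzero] at hi2
    exact_mod_cast hi2
  rcases lt_or_gt_of_ne hσ with hneg | hpos
  · -- the values increase
    have hσ' : ((a : ℝ) + b + c) ≤ -1 := by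
      have : a + b + c ≤ -1 := by omega
      exact_mod_cast this
    obtain ⟨g1, g2, g3⟩ := hi0 k hk
    have hend : x < FZ h a b c (1 + Q * k) (Q * Jf k) := by
      have h5 : (x : ℝ) < (FZ h a b c (1 + Q * k) (Q * Jf k) : ℝ) := by
        rw [FZ_cast]
        set s : ℝ := ((1 + Q * k : ℕ) : ℝ) with hs
        have hs0 : 0 ≤ s := by rw [hs]; positivity
        have hsn : ((1 + Q * (k + 1) : ℕ) : ℝ) = s + Q := by rw [hs]; push_cast; ring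
        rw [hsn] at hnextR
        have hv0 : (0 : ℝ) ≤ ((Q * Jf k : ℕ) : ℝ) := Nat.cast_nonneg _
        have hv1 : ((Q * Jf k : ℕ) : ℝ) = Q * Jf k := by push_cast; ring
        have hlow := F_lower (h := h) (a := a) (b := b) (c := c) hh0 hη0 hη1 hη hσ' (u := s)
          (v := ((Q * Jf k : ℕ) : ℝ)) hs0 hv0 (by rw [hv1]; exact g2)
        refine lt_of_lt_of_le hnextR (le_trans ?_ hlow)
        apply mul_le_mul_of_nonneg_left _ hh0
        rw [hv1]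
        have e1 : 1 / 2 * (s ^ 4 * (Q * (Jf k : ℝ)) ^ 2) = 1 / 2 * (s ^ 4 * Q * (Q * (Jf k : ℝ) ^ 2)) := by
          ring
        have e2 : 1 / 2 * (s ^ 4 * Q * (24 * s)) ≤ 1 / 2 * (s ^ 4 * Q * (Q * (Jf k : ℝ) ^ 2)) := by
          gcongr
        have hQs : (Q : ℝ) ≤ s / 5 := by linarith
        have e3 : (s + Q) ^ 6 ≤ s ^ 6 + 12 * s ^ 5 * Q := by
          have k2 : (Q : ℝ) ^ 2 ≤ s / 5 * Q := by nlinarith
          have k3 : (Q : ℝ) ^ 3 ≤ (s / 5) ^ 2 * Q := by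
            calc (Q : ℝ) ^ 3 = Q * Q * Q := by ring
              _ ≤ (s / 5) * (s / 5) * Q := by gcongr
              _ = _ := by ring
          have k4 : (Q : ℝ) ^ 4 ≤ (s / 5) ^ 3 * Q := by
            calc (Q : ℝ) ^ 4 = Q * Q * Q * Q := by ring
              _ ≤ (s / 5) * (s / 5) * (s / 5) * Q := by gcongr
              _ = _ := by ring
          have k5 : (Q : ℝ) ^ 5 ≤ (s / 5) ^ 4 * Q := by
            calc (Q : ℝ) ^ 5 = Q * Q * Q * Q * Q := by ring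
              _ ≤ (s / 5) * (s / 5) * (s / 5) * (s / 5) * Q := by gcongr
              _ = _ := by ring
          have k6 : (Q : ℝ) ^ 6 ≤ (s / 5) ^ 5 * Q := by
            calc (Q : ℝ) ^ 6 = Q * Q * Q * Q * Q * Q := by ring
              _ ≤ (s / 5) * (s / 5) * (s / 5) * (s / 5) * (s / 5) * Q := by gcongr
              _ = _ := by ring
          have m2 := mul_le_mul_of_nonneg_left k2 (by positivity : 0 ≤ 15 * s ^ 4)
          have m3 := mul_le_mul_of_nonneg_left k3 (by positivity : 0 ≤ 20 * s ^ 3)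
          have m4 := mul_le_mul_of_nonneg_left k4 (by positivity : 0 ≤ 15 * s ^ 2)
          have m5 := mul_le_mul_of_nonneg_left k5 (by positivity : 0 ≤ 6 * s)
          have e0 : (s + Q) ^ 6 = s ^ 6 + 6 * s ^ 5 * Q + 15 * s ^ 4 * (Q : ℝ) ^ 2 +
            20 * s ^ 3 * (Q : ℝ) ^ 3 + 15 * s ^ 2 * (Q : ℝ) ^ 4 + 6 * s * (Q : ℝ) ^ 5 +
            (Q : ℝ) ^ 6 := by ring
          have p5 : 0 ≤ s ^ 5 * Q := by positivity
          rw [e0]
          have f2 : 15 * s ^ 4 * (s / 5 * Q) = 3 * (s ^ 5 * Q) := by ring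
          have f3 : 20 * s ^ 3 * ((s / 5) ^ 2 * Q) = 20 / 25 * (s ^ 5 * Q) := by ring
          have f4 : 15 * s ^ 2 * ((s / 5) ^ 3 * Q) = 15 / 125 * (s ^ 5 * Q) := by ring
          have f5 : 6 * s * ((s / 5) ^ 4 * Q) = 6 / 625 * (s ^ 5 * Q) := by ring
          have f6 : (s / 5) ^ 5 * Q = 1 / 3125 * (s ^ 5 * Q) := by ring
          linarith
        rw [e1]
        have e4 : 1 / 2 * (s ^ 4 * Q * (24 * s)) = 12 * s ^ 5 * Q := by ring
        linarith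
      exact_mod_cast h5
    obtain ⟨j, hj, hj1, hj2⟩ := div_up (fun j => FZ h a b c (1 + Q * k) (Q * j)) x (Jf k) hprev hend
    refine ⟨k, j + 1, j, hk, Or.inr rfl, hj, hj.le, hj1, hj2, ?_⟩
    refine le_trans ?_ hprevR
    have hs1 : (Q : ℝ) ≤ ((1 + Q * k : ℕ) : ℝ) := by linarith
    have : (((1 + Q * k : ℕ) : ℝ) - Q) ^ 6 ≤ (((1 + Q * k : ℕ) : ℝ)) ^ 6 :=
      pow_le_pow_left₀ (by linarith) (by linarith) 6
    exact mul_le_mul_of_nonneg_left this hh0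
  · have hσ' : 1 ≤ ((a : ℝ) + b + c) := by
      have : 1 ≤ a + b + c := by omega
      exact_mod_cast this
    obtain ⟨g1, g2, g3⟩ := hi0 (k + 1) (by omega)
    have hend : FZ h a b c (1 + Q * (k + 1)) (Q * Jf (k + 1)) ≤ x := by
      have h5 : (FZ h a b c (1 + Q * (k + 1)) (Q * Jf (k + 1)) : ℝ) ≤ x := by
        rw [FZ_cast]
        rw [← hsp] at hprevR
        set s : ℝ := ((1 + Q * (k + 1) : ℕ) : ℝ) with hs
        have hs0 : 0 ≤ s := by rw [hs]; positivity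
        have hv0 : (0 : ℝ) ≤ ((Q * Jf (k + 1) : ℕ) : ℝ) := Nat.cast_nonneg _
        have hv1 : ((Q * Jf (k + 1) : ℕ) : ℝ) = Q * Jf (k + 1) := by push_cast; ring
        have hup := F_upper (h := h) (a := a) (b := b) (c := c) hh0 hη0 hη1 hη hσ' (u := s)
          (v := ((Q * Jf (k + 1) : ℕ) : ℝ)) hs0 hv0 (by rw [hv1]; exact g2)
        refine hup.trans (le_trans ?_ hprevR)
        apply mul_le_mul_of_nonneg_left _ hh0
        rw [hv1]
        have e1 : 1 / 2 * (s ^ 4 * (Q * (Jf (k + 1) : ℝ)) ^ 2) =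
          1 / 2 * (s ^ 4 * Q * (Q * (Jf (k + 1) : ℝ) ^ 2)) := by ring
        have e2 : 1 / 2 * (s ^ 4 * Q * (24 * s)) ≤
          1 / 2 * (s ^ 4 * Q * (Q * (Jf (k + 1) : ℝ) ^ 2)) := by gcongr
        have hQs : (Q : ℝ) ≤ s := by linarith
        have e3 : s ^ 6 ≤ (s - Q) ^ 6 + 12 * s ^ 5 * Q := by
          have e0 : 12 * s ^ 5 * Q - (s ^ 6 - (s - Q) ^ 6) = 6 * s ^ 5 * Q + 15 * s ^ 4 * Q ^ 2 -
            20 * s ^ 3 * Q ^ 3 + 15 * s ^ 2 * Q ^ 4 - 6 * s * Q ^ 5 + (Q : ℝ) ^ 6 := by ring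
          have hQ5 : (Q : ℝ) ≤ s / 5 := by linarith
          have k1 : 20 * s ^ 3 * (Q : ℝ) ^ 3 ≤ 4 * s ^ 4 * Q ^ 2 := by
            have : 20 * s ^ 3 * (Q : ℝ) ^ 2 * Q ≤ 20 * s ^ 3 * (Q : ℝ) ^ 2 * (s / 5) := by gcongr
            linarith
          have k2 : 6 * s * (Q : ℝ) ^ 5 ≤ 6 / 5 * s ^ 2 * Q ^ 4 := by
            have : 6 * s * (Q : ℝ) ^ 4 * Q ≤ 6 * s * (Q : ℝ) ^ 4 * (s / 5) := by gcongr
            linarith
          have p1 : 0 ≤ s ^ 5 * Q := by positivity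
          have p2 : 0 ≤ s ^ 4 * (Q : ℝ) ^ 2 := by positivity
          have p3 : 0 ≤ s ^ 2 * (Q : ℝ) ^ 4 := by positivity
          have p4 : 0 ≤ (Q : ℝ) ^ 6 := by positivity
          linarith
        rw [e1]
        have e4 : 1 / 2 * (s ^ 4 * Q * (24 * s)) = 12 * s ^ 5 * Q := by ring
        linarith
      exact_mod_cast h5
    obtain ⟨j, hj, hj1, hj2⟩ := div_down (fun j => FZ h a b c (1 + Q * (k + 1)) (Q * j)) x
      (Jf (k + 1)) hi2 hend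
    refine ⟨k + 1, j, j + 1, by omega, Or.inl rfl, hj.le, hj, hj2, hj1, ?_⟩
    rw [hsp]; exact hprevR

end Pool.Agent.TH562.R2
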