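import Mathlib
import Pool.Agent.H918R3.TB1

/-! Two independent points on the twists. -/

set_option autoImplicit false

namespace Pool.Agent.TH562.R2

open Pool.Agent.H918R3

/-- parity of the valuation of the class of `x - e` -/
noncomputable def wv {e1 e2 e3 : ℚ} (p : ℕ) (e f g : ℚ) (P : Pt e1 e2 e3) : ZMod 2 :=
  ((padicValRat p (dl e f g P) : ℤ) : ZMod 2)

theorem val_sq_even (p : ℕ) [Fact p.Prime] {r : ℚ} (hr : IsSquare r) (h0 : r ≠ 0) :
    ((padicValRat p r : ℤ) : ZMod 2) = 0 := by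
  obtain ⟨t, rfl⟩ := hr
  have ht : t ≠ 0 := fun h => h0 (by rw [h, mul_zero])
  rw [padicValRat.mul ht ht]
  push_cast
  exact CharTwo.add_self_eq_zero _

theorem wv_add (p : ℕ) [Fact p.Prime] {e1 e2 e3 e f g : ℚ} (hp : crv e f g = crv e1 e2 e3)
    (hef : e ≠ f) (heg : e ≠ g) (hfg : f ≠ g) (P Q : Pt e1 e2 e3) :
    wv p e f g (P + Q) = wv p e f g P + wv p e f g Q := by
  obtain ⟨hP, hsq⟩ := dl_add (K := ℚ) two_ne_zero hp hef heg hfg P Q
  obtain ⟨hQ, _⟩ := dl_add (K := ℚ) two_ne_zero hp hef heg hfg Q Q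
  obtain ⟨hPQ, _⟩ := dl_add (K := ℚ) two_ne_zero hp hef heg hfg (P + Q) Q
  have h := val_sq_even p hsq (mul_ne_zero hPQ (mul_ne_zero hP hQ))
  rw [padicValRat.mul hPQ (mul_ne_zero hP hQ), padicValRat.mul hP hQ] at h
  push_cast at h
  unfold wv
  have h2 := eq_neg_of_add_eq_zero_left h
  rw [h2, CharTwo.neg_eq]

/-- the homomorphism -/
noncomputable def wh (p : ℕ) [Fact p.Prime] {e1 e2 e3 e f g : ℚ} (hp : crv e f g = crv e1 e2 e3)
    (hef : e ≠ f) (heg : e ≠ g) (hfg : f ≠ g) : Pt e1 e2 e3 →+ ZMod 2 :=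
  AddMonoidHom.mk' (wv p e f g) (wv_add p hp hef heg hfg)

theorem wh_apply (p : ℕ) [Fact p.Prime] {e1 e2 e3 e f g : ℚ} (hp : crv e f g = crv e1 e2 e3)
    (hef : e ≠ f) (heg : e ≠ g) (hfg : f ≠ g) (P : Pt e1 e2 e3) :
    wh p hp hef heg hfg P = wv p e f g P := rfl

theorem two_zero (x : ZMod 2) : x + x = 0 := CharTwo.add_self_eq_zero x

/-- abstract form: two elements of an abelian group are independent. -/
theorem indep_abstract {G : Type*} [AddCommGroup G] (wA wB wC w2 : G →+ ZMod 2)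
    (hT : ∀ T : G, T + T = 0 → wA T = wB T ∧ wB T = wC T)
    (hT' : ∀ T : G, T + T = 0 → wA T = 0 → w2 T = 0 → T = 0)
    {P Q : G} (hPA : wA P = 0) (hPB : wB P = 1) (hPC : wC P = 1)
    (hQA : wA Q = 1) (hQB : wB Q = 1) (hQC : wC Q = 0) :
    ∀ m n : ℤ, m • P + n • Q = 0 → m = 0 ∧ n = 0 := by
  have key : ∀ N : ℕ, ∀ m n : ℤ, m.natAbs + n.natAbs ≤ N →
      (m • P + n • Q) + (m • P + n • Q) = 0 → m = 0 ∧ n = 0 := by
    intro N
    induction N using Nat.strong_induction_on with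
    | _ N ih =>
      intro m n hmn h
      obtain ⟨h1, h2⟩ := hT _ h
      rw [map_add, map_add, map_zsmul, map_zsmul, map_zsmul, map_zsmul, hPA, hQA, hPB, hQB] at h1
      rw [map_add, map_add, map_zsmul, map_zsmul, map_zsmul, map_zsmul, hPB, hQB, hPC, hQC] at h2
      simp only [smul_zero, zero_add, add_zero, zsmul_one] at h1 h2
      -- h1 : n = m + n, h2 : m + n = m
      have hm0 : ((m : ℤ) : ZMod 2) = 0 := by
        have : (m : ZMod 2) + n = n := h1.symm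
        simpa using this
      have hn0 : ((n : ℤ) : ZMod 2) = 0 := by
        have : (m : ZMod 2) + n = m := h2
        simpa using this
      rw [ZMod.intCast_zmod_eq_zero_iff_dvd] at hm0 hn0
      obtain ⟨m', rfl⟩ := hm0
      obtain ⟨n', rfl⟩ := hn0
      by_cases hz : m' = 0 ∧ n' = 0
      · obtain ⟨rfl, rfl⟩ := hz
        simp
      have hlt : m'.natAbs + n'.natAbs < N := by
        push_cast at hmn
        omega
      have hdouble : (((2 : ℕ) : ℤ) * m') • P + (((2 : ℕ) : ℤ) * n') • Q =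
        (m' • P + n' • Q) + (m' • P + n' • Q) := by
        push_cast
        rw [mul_smul, mul_smul, two_zsmul, two_zsmul]
        abel
      have hT0 := hT' _ h (by rw [hdouble, map_add]; exact two_zero _)
        (by rw [hdouble, map_add]; exact two_zero _)
      rw [hdouble] at hT0
      obtain ⟨h3, h4⟩ := ih (m'.natAbs + n'.natAbs) hlt m' n' le_rfl hT0
      exact absurd ⟨h3, h4⟩ hz
  intro m n h
  exact key _ m n le_rfl (by rw [h, add_zero])

/-- parity of the valuation of a rational number -/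
noncomputable def par (p : ℕ) (r : ℚ) : ZMod 2 := ((padicValRat p r : ℤ) : ZMod 2)

theorem par_mul (p : ℕ) [Fact p.Prime] {r s : ℚ} (hr : r ≠ 0) (hs : s ≠ 0) :
    par p (r * s) = par p r + par p s := by
  unfold par
  rw [padicValRat.mul hr hs]
  push_cast
  rfl

theorem par_sq_mul (p : ℕ) [Fact p.Prime] {r s : ℚ} (hr : r ≠ 0) (hs : s ≠ 0) :
    par p (r ^ 2 * s) = par p s := by
  rw [par_mul p (pow_ne_zero 2 hr) hs, pow_two, par_mul p hr hr, two_zero, zero_add]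

theorem par_unit (p : ℕ) [Fact p.Prime] {z : ℤ} (hz : ¬ (p : ℤ) ∣ z) : par p (z : ℚ) = 0 := by
  unfold par
  rw [padicValRat.of_int, padicValInt.eq_zero_of_not_dvd hz]
  norm_num

theorem par_one (p : ℕ) [hp : Fact p.Prime] {z : ℤ} (hz : (p : ℤ) ∣ z) (hz2 : ¬ (p : ℤ) ^ 2 ∣ z) :
    par p (z : ℚ) = 1 := by
  obtain ⟨w, rfl⟩ := hz
  have hw : ¬ (p : ℤ) ∣ w := by
    rintro ⟨t, rfl⟩
    exact hz2 ⟨t, by ring⟩
  have hw0 : (w : ℚ) ≠ 0 := by
    intro h
    have : w = 0 := by exact_mod_cast h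
    exact hw (by rw [this]; exact dvd_zero _)
  have hp0 : (p : ℚ) ≠ 0 := by exact_mod_cast hp.out.ne_zero
  push_cast
  rw [par_mul p hp0 hw0, par_unit p hw, add_zero]
  unfold par
  rw [padicValRat.self hp.out.one_lt]
  norm_num

/-- a point of order two -/
theorem two_tors {e1 e2 e3 : ℚ} (T : Pt e1 e2 e3) (hT : T + T = 0) :
    T = 0 ∨ ∃ x h, T = WeierstrassCurve.Affine.Point.some x 0 h ∧
      (x = e1 ∨ x = e2 ∨ x = e3) := by
  cases T with
  | zero => exact Or.inl rfl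
  | some x y h =>
    right
    have h1 := eq_neg_of_add_eq_zero_left hT
    rw [WeierstrassCurve.Affine.Point.neg_some] at h1
    injection h1 with h2 h3
    have hy : y = 0 := by
      simp only [WeierstrassCurve.Affine.negY, crv] at h3
      linarith
    subst hy
    refine ⟨x, h, rfl, ?_⟩
    have h4 := TB1.crv_eqn.mp h.1
    have h5 : (x - e1) * (x - e2) * (x - e3) = 0 := by rw [← h4]; ring
    rcases mul_eq_zero.1 h5 with h6 | h6
    · rcases mul_eq_zero.1 h6 with h7 | h7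
      · exact Or.inl (sub_eq_zero.1 h7)
      · exact Or.inr (Or.inl (sub_eq_zero.1 h7))
    · exact Or.inr (Or.inr (sub_eq_zero.1 h6))

theorem wv_some {e1 e2 e3 : ℚ} (p : ℕ) {e f g x y : ℚ} (h) (hx : x ≠ e) :
    wv p e f g (WeierstrassCurve.Affine.Point.some x y h : Pt e1 e2 e3) = par p (x - e) := by
  unfold wv par
  rw [TB1.dl_eq, TB1.dlW_some, if_neg hx]

theorem wv_root {e1 e2 e3 : ℚ} (p : ℕ) {e f g x y : ℚ} (h) (hx : x = e) :
    wv p e f g (WeierstrassCurve.Affine.Point.some x y h : Pt e1 e2 e3) =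
      par p ((e - f) * (e - g)) := by
  unfold wv par
  rw [TB1.dl_eq, TB1.dlW_some, if_pos hx]

theorem wv_zero {e1 e2 e3 : ℚ} (p : ℕ) {e f g : ℚ} : wv p e f g (0 : Pt e1 e2 e3) = 0 := by
  change ((padicValRat p (dl e f g (WeierstrassCurve.Affine.Point.zero : Pt e1 e2 e3)) : ℤ) :
    ZMod 2) = 0
  rw [TB1.dl_eq]
  simp [TB1.dlW]

/-- conditions on a prime dividing exactly `A` -/
structure Sep (p : ℕ) (A B C z : ℤ) : Prop where
  prime : p.Prime
  dvd : (p : ℤ) ∣ A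
  sq : ¬ (p : ℤ) ^ 2 ∣ A
  nB : ¬ (p : ℤ) ∣ B
  nC : ¬ (p : ℤ) ∣ C
  nz : ¬ (p : ℤ) ∣ z

theorem rank_two {e1 e2 e3 hs g u v : ℤ} (h12 : e1 ≠ e2) (h13 : e1 ≠ e3) (h23 : e2 ≠ e3)
    (hg : g ≠ 0) (hs0 : hs ≠ 0)
    (hhs : hs * g ^ 2 = (e1 - e2) * (e2 - e3) * (e3 - e1) *
      ((e1 - e2) ^ 2 + (e1 - e2) * (e2 - e3) + (e2 - e3) ^ 2))
    (hu : u ≠ 0) (hv : v ≠ 0) {A B C : ℤ}
    (hA : A = u ^ 2 - (e1 - e2) ^ 2 * (e2 - e3) * (e3 - e1) ^ 3 * v ^ 2)
    (hB : B = u ^ 2 - (e1 - e2) ^ 3 * (e2 - e3) ^ 2 * (e3 - e1) * v ^ 2)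
    (hC : C = u ^ 2 - (e1 - e2) * (e2 - e3) ^ 3 * (e3 - e1) ^ 2 * v ^ 2)
    {pA pB pC : ℕ}
    (sA : Sep pA A B C (hs * (e1 - e2) * (e2 - e3) * (e3 - e1)))
    (sB : Sep pB B C A (hs * (e1 - e2) * (e2 - e3) * (e3 - e1)))
    (sC : Sep pC C A B (hs * (e1 - e2) * (e2 - e3) * (e3 - e1)))
    {D : ℤ} (hD : D = hs * (A * B * C)) :
    ∃ P Q : Pt ((e1 : ℚ) * D) ((e2 : ℚ) * D) ((e3 : ℚ) * D),
      ∀ m n : ℤ, m • P + n • Q = 0 → m = 0 ∧ n = 0 := by
  have ne : ∀ {p : ℕ} {z : ℤ}, ¬ (p : ℤ) ∣ z → z ≠ 0 := by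
    intro p z h h0
    exact h (by rw [h0]; exact dvd_zero _)
  have hA0 : A ≠ 0 := ne sB.nC
  have hB0 : B ≠ 0 := ne sA.nB
  have hC0 : C ≠ 0 := ne sA.nC
  set α : ℤ := e1 - e2 with hα
  set β : ℤ := e2 - e3 with hβ
  set γ : ℤ := e3 - e1 with hγ
  have hα0 : α ≠ 0 := sub_ne_zero.2 h12
  have hβ0 : β ≠ 0 := sub_ne_zero.2 h23
  have hγ0 : γ ≠ 0 := sub_ne_zero.2 h13.symm
  have hsum : γ = -α - β := by rw [hα, hβ, hγ]; ring
  -- rational versions
  have qA : (A : ℚ) ≠ 0 := by exact_mod_cast hA0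
  have qB : (B : ℚ) ≠ 0 := by exact_mod_cast hB0
  have qC : (C : ℚ) ≠ 0 := by exact_mod_cast hC0
  have qg : (g : ℚ) ≠ 0 := by exact_mod_cast hg
  have qu : (u : ℚ) ≠ 0 := by exact_mod_cast hu
  have qv : (v : ℚ) ≠ 0 := by exact_mod_cast hv
  have qs : (hs : ℚ) ≠ 0 := by exact_mod_cast hs0
  have qα : (α : ℚ) ≠ 0 := by exact_mod_cast hα0
  have qβ : (β : ℚ) ≠ 0 := by exact_mod_cast hβ0
  have qγ : (γ : ℚ) ≠ 0 := by exact_mod_cast hγ0
  have qD : (D : ℚ) = hs * (A * B * C) := by rw [hD]; push_cast; ring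
  have qD0 : (D : ℚ) ≠ 0 := by rw [qD]; exact mul_ne_zero qs (mul_ne_zero (mul_ne_zero qA qB) qC)
  have r12 : (e1 : ℚ) * D - e2 * D = α * D := by rw [hα]; push_cast; ring
  have r23 : (e2 : ℚ) * D - e3 * D = β * D := by rw [hβ]; push_cast; ring
  have r31 : (e3 : ℚ) * D - e1 * D = γ * D := by rw [hγ]; push_cast; ring
  have f12 : (e1 : ℚ) * D ≠ e2 * D := by
    rw [← sub_ne_zero, r12]; exact mul_ne_zero qα qD0
  have f23 : (e2 : ℚ) * D ≠ e3 * D := by
    rw [← sub_ne_zero, r23]; exact mul_ne_zero qβ qD0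
  have f31 : (e3 : ℚ) * D ≠ e1 * D := by
    rw [← sub_ne_zero, r31]; exact mul_ne_zero qγ qD0
  -- identities
  have i1 : B - A = hs * g ^ 2 * α * v ^ 2 := by
    rw [hhs, hA, hB, hsum]; ring
  have i2 : C - B = hs * g ^ 2 * β * v ^ 2 := by
    rw [hhs, hB, hC, hsum]; ring
  have i3 : α * β * γ * (β ^ 2 * A - α * γ * C) = hs * g ^ 2 * u ^ 2 := by
    rw [hhs, hA, hC, hsum]; ring
  have i4 : α * β * γ * (γ ^ 2 * B - α * β * A) = hs * g ^ 2 * u ^ 2 := by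
    rw [hhs, hA, hB, hsum]; ring
  have j1 : (B : ℚ) = A + hs * g ^ 2 * α * v ^ 2 := by
    have : (B : ℚ) - A = hs * g ^ 2 * α * v ^ 2 := by exact_mod_cast i1
    linarith
  have j2 : (C : ℚ) = B + hs * g ^ 2 * β * v ^ 2 := by
    have : (C : ℚ) - B = hs * g ^ 2 * β * v ^ 2 := by exact_mod_cast i2
    linarith
  have j3 : (α : ℚ) * β * γ * (β ^ 2 * A - α * γ * C) = hs * g ^ 2 * u ^ 2 := by exact_mod_cast i3
  have j4 : (α : ℚ) * β * γ * (γ ^ 2 * B - α * β * A) = hs * g ^ 2 * u ^ 2 := by exact_mod_cast i4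
  -- the first point
  set xP : ℚ := e1 * D + (A / (g * v)) ^ 2 * (B * C) with hxP
  have P1 : xP - e1 * D = (A / (g * v)) ^ 2 * (B * C) := by rw [hxP]; ring
  have P2 : xP - e2 * D = (B / (g * v)) ^ 2 * (A * C) := by
    have e : xP - e2 * D = (A / (g * v)) ^ 2 * (B * C) + α * D := by rw [← r12, hxP]; ring
    rw [e, qD]
    field_simp
    rw [j1]; ring
  have P3 : xP - e3 * D = (C / (g * v)) ^ 2 * (A * B) := by
    have e : xP - e3 * D = (B / (g * v)) ^ 2 * (A * C) + β * D := by rw [← r23, ← P2]; ring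
    rw [e, qD]
    field_simp
    rw [j2]; ring
  have hPn : (crv ((e1 : ℚ) * D) (e2 * D) (e3 * D)).toAffine.Nonsingular xP
      ((A * B * C) ^ 2 / (g * v) ^ 3) := by
    apply TB1.crv_nonsing two_ne_zero f12 f31.symm f23
    rw [P1, P2, P3]
    field_simp
  -- the second point
  set xQ : ℚ := e1 * D + (α * γ * C / (g * u)) ^ 2 * (α * β * (A * B)) with hxQ
  have Q1 : xQ - e1 * D = (α * γ * C / (g * u)) ^ 2 * (α * β * (A * B)) := by rw [hxQ]; ring
  have Q2 : xQ - e2 * D = (α * β * A / (g * u)) ^ 2 * (β * γ * (B * C)) := by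
    have e : xQ - e2 * D = (α * γ * C / (g * u)) ^ 2 * (α * β * (A * B)) + α * D := by
      rw [← r12, hxQ]; ring
    rw [e, qD]
    field_simp
    linear_combination (-(1 : ℚ)) * j3
  have Q3 : xQ - e3 * D = (β * γ * B / (g * u)) ^ 2 * (α * γ * (A * C)) := by
    have e : xQ - e3 * D = (α * β * A / (g * u)) ^ 2 * (β * γ * (B * C)) + β * D := by
      rw [← r23, ← Q2]; ring
    rw [e, qD]
    field_simp
    linear_combination (-(1 : ℚ)) * j4
  have hQn : (crv ((e1 : ℚ) * D) (e2 * D) (e3 * D)).toAffine.Nonsingular xQ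
      ((α * β * γ) ^ 3 * (A * B * C) ^ 2 / (g * u) ^ 3) := by
    apply TB1.crv_nonsing two_ne_zero f12 f31.symm f23
    rw [Q1, Q2, Q3]
    field_simp
  -- parities
  have ndvd : ∀ {p : ℕ}, p.Prime → ¬ (p : ℤ) ∣ hs * α * β * γ →
      (¬ (p : ℤ) ∣ hs) ∧ (¬ (p : ℤ) ∣ α) ∧ (¬ (p : ℤ) ∣ β) ∧ (¬ (p : ℤ) ∣ γ) := by
    intro p _ h
    refine ⟨fun h' => h ?_, fun h' => h ?_, fun h' => h ?_, fun h' => h ?_⟩
    · exact Dvd.dvd.mul_right (Dvd.dvd.mul_right (Dvd.dvd.mul_right h' _) _) _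
    · exact Dvd.dvd.mul_right (Dvd.dvd.mul_right (Dvd.dvd.mul_left h' _) _) _
    · exact Dvd.dvd.mul_right (Dvd.dvd.mul_left h' _) _
    · exact Dvd.dvd.mul_left h' _
  have nmul : ∀ {p : ℕ} (_ : p.Prime) {x y : ℤ}, ¬ (p : ℤ) ∣ x → ¬ (p : ℤ) ∣ y → ¬ (p : ℤ) ∣ x * y := by
    intro p hp x y hx hy h
    rcases (Nat.prime_iff_prime_int.1 hp).dvd_or_dvd h with h | h
    · exact hx h
    · exact hy h
  -- values for one prime; `a b c` are the parities of `A B C`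
  have vals : ∀ (p : ℕ) [Fact p.Prime], ¬ (p : ℤ) ∣ hs * α * β * γ →
      par p (hs : ℚ) = 0 ∧ par p (α : ℚ) = 0 ∧ par p (β : ℚ) = 0 ∧ par p (γ : ℚ) = 0 ∧
      par p (α * β : ℚ) = 0 ∧ par p (-(α * γ) : ℚ) = 0 ∧ par p (-α : ℚ) = 0 := by
    intro p hp h
    obtain ⟨h1, h2, h3, h4⟩ := ndvd hp.out h
    refine ⟨par_unit p h1, par_unit p h2, par_unit p h3, par_unit p h4, ?_, ?_, ?_⟩
    · have := par_unit p (nmul hp.out h2 h3)
      push_cast at this; exact this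
    · have h5 : ¬ (p : ℤ) ∣ -(α * γ) := fun h => nmul hp.out h2 h4 ((dvd_neg).1 h)
      have := par_unit p h5
      push_cast at this; exact this
    · have h5 : ¬ (p : ℤ) ∣ -α := fun h => h2 ((dvd_neg).1 h)
      have := par_unit p h5
      push_cast at this; exact this
  have g1 : xP ≠ e1 * D := by
    rw [← sub_ne_zero, P1]; positivity
  have g2 : xQ ≠ e1 * D := by
    rw [← sub_ne_zero, Q1]; positivity
  have wP : ∀ (p : ℕ) [Fact p.Prime], wv p ((e1 : ℚ) * D) (e2 * D) (e3 * D)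
      (WeierstrassCurve.Affine.Point.some _ _ hPn : Pt ((e1 : ℚ) * D) (e2 * D) (e3 * D)) =
        par p (B : ℚ) + par p (C : ℚ) := by
    intro p _
    rw [wv_some p hPn g1, P1, par_sq_mul p (by positivity) (by positivity), par_mul p qB qC]
  have wQ : ∀ (p : ℕ) [Fact p.Prime], ¬ (p : ℤ) ∣ hs * α * β * γ →
      wv p ((e1 : ℚ) * D) (e2 * D) (e3 * D)
      (WeierstrassCurve.Affine.Point.some _ _ hQn : Pt ((e1 : ℚ) * D) (e2 * D) (e3 * D)) =
        par p (A : ℚ) + par p (B : ℚ) := by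
    intro p _ h
    rw [wv_some p hQn g2, Q1, par_sq_mul p (by positivity) (by positivity),
      par_mul p (by positivity) (by positivity), (vals p h).2.2.2.2.1, zero_add, par_mul p qA qB]
  have wD : ∀ (p : ℕ) [Fact p.Prime], ¬ (p : ℤ) ∣ hs * α * β * γ →
      par p (D : ℚ) = par p (A : ℚ) + par p (B : ℚ) + par p (C : ℚ) := by
    intro p _ h
    rw [qD, par_mul p qs (by positivity), (vals p h).1, zero_add,
      par_mul p (by positivity) qC, par_mul p qA qB]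
  have wT : ∀ (p : ℕ) [Fact p.Prime], ¬ (p : ℤ) ∣ hs * α * β * γ →
      ∀ x h, (x = (e1 : ℚ) * D → wv p ((e1 : ℚ) * D) (e2 * D) (e3 * D)
        (WeierstrassCurve.Affine.Point.some x 0 h : Pt ((e1 : ℚ) * D) (e2 * D) (e3 * D)) = 0) ∧
      ((x = (e2 : ℚ) * D ∨ x = (e3 : ℚ) * D) → wv p ((e1 : ℚ) * D) (e2 * D) (e3 * D)
        (WeierstrassCurve.Affine.Point.some x 0 h : Pt ((e1 : ℚ) * D) (e2 * D) (e3 * D)) =
          par p (D : ℚ)) := by
    intro p _ hp x h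
    obtain ⟨v1, v2, v3, v4, v5, v6, v7⟩ := vals p hp
    refine ⟨fun hx => ?_, fun hx => ?_⟩
    · rw [wv_root p h hx, r12]
      have e : (α : ℚ) * D * (e1 * D - e3 * D) = (D : ℚ) ^ 2 * (-(α * γ)) := by
        have : (e1 : ℚ) * D - e3 * D = -(γ * D) := by rw [← r31]; ring
        rw [this]; ring
      rw [e, par_sq_mul p qD0 (by
        rw [neg_ne_zero]; exact mul_ne_zero qα qγ)]
      exact v6
    · rcases hx with rfl | rfl
      · rw [wv_some p h f12.symm]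
        have e : (e2 : ℚ) * D - e1 * D = (-α) * D := by rw [neg_mul, ← r12]; ring
        rw [e, par_mul p (by rw [neg_ne_zero]; exact qα) qD0, v7, zero_add]
      · rw [wv_some p h f31, r31, par_mul p qγ qD0, v4, zero_add]
  haveI : Fact pA.Prime := ⟨sA.prime⟩
  haveI : Fact pB.Prime := ⟨sB.prime⟩
  haveI : Fact pC.Prime := ⟨sC.prime⟩
  have aA := par_one pA sA.dvd sA.sq
  have aB := par_unit pA sA.nB
  have aC := par_unit pA sA.nC
  have bA := par_unit pB sB.nC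
  have bB := par_one pB sB.dvd sB.sq
  have bC := par_unit pB sB.nB
  have cA := par_unit pC sC.nB
  have cB := par_unit pC sC.nC
  have cC := par_one pC sC.dvd sC.sq
  have dA : par pA (D : ℚ) = 1 := by rw [wD pA sA.nz, aA, aB, aC]; rfl
  have dB : par pB (D : ℚ) = 1 := by rw [wD pB sB.nz, bA, bB, bC]; rfl
  have dC : par pC (D : ℚ) = 1 := by rw [wD pC sC.nz, cA, cB, cC]; rfl
  have hcrv : crv ((e2 : ℚ) * D) (e1 * D) (e3 * D) = crv ((e1 : ℚ) * D) (e2 * D) (e3 * D) := by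
    unfold crv
    congr 1 <;> ring
  refine ⟨WeierstrassCurve.Affine.Point.some _ _ hPn, WeierstrassCurve.Affine.Point.some _ _ hQn,
    indep_abstract (wh pA rfl f12 f31.symm f23) (wh pB rfl f12 f31.symm f23)
      (wh pC rfl f12 f31.symm f23) (wh pA hcrv f12.symm f23 f31.symm) ?_ ?_ ?_ ?_ ?_ ?_ ?_ ?_⟩
  · intro T hT
    rcases two_tors T hT with rfl | ⟨x, h, rfl, hx⟩
    · simp only [map_zero, and_self]
    · rw [wh_apply, wh_apply, wh_apply]
      rcases hx with hx | hx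
      · rw [(wT pA sA.nz x h).1 hx, (wT pB sB.nz x h).1 hx, (wT pC sC.nz x h).1 hx]
        exact ⟨rfl, rfl⟩
      · rw [(wT pA sA.nz x h).2 hx, (wT pB sB.nz x h).2 hx, (wT pC sC.nz x h).2 hx, dA, dB, dC]
        exact ⟨rfl, rfl⟩
  · intro T hT h1 h2
    rcases two_tors T hT with rfl | ⟨x, h, rfl, hx⟩
    · rfl
    · exfalso
      rw [wh_apply] at h1 h2
      rcases hx with hx | hx
      · subst hx
        rw [wv_some pA h f12, r12, par_mul pA qα qD0, dA, (vals pA sA.nz).2.1] at h2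
        exact absurd h2 (by decide)
      · rw [(wT pA sA.nz x h).2 hx, dA] at h1
        exact absurd h1 (by decide)
  · rw [wh_apply, wP pA, aB, aC]; rfl
  · rw [wh_apply, wP pB, bB, bC]; rfl
  · rw [wh_apply, wP pC, cB, cC]; rfl
  · rw [wh_apply, wQ pA sA.nz, aA, aB]; rfl
  · rw [wh_apply, wQ pB sB.nz, bA, bB]; rfl
  · rw [wh_apply, wQ pC sC.nz, cA, cB]; rfl

end Pool.Agent.TH562.R2
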