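import Mathlib
import Pool.Agent.TH562.TW.Count

/-! Sieve for products of quadratic forms in a box. -/

set_option autoImplicit false

namespace Pool.Agent.TH562.R2

open Finset Pool.Agent.TH562.TW

theorem card_two {ι : Type*} (T : Finset ι) (f : ι → ℕ)
    (hinj : ∀ x ∈ T, ∀ y ∈ T, f x = f y → x = y) {L : ℕ} (hf : ∀ x ∈ T, f x ≤ L) {d : ℕ}
    (hd : 0 < d) (z : ι → ℤ)
    (hz : ∀ x ∈ T, ∀ y ∈ T, (d : ℤ) ∣ z x - z y → (d : ℤ) ∣ (f x : ℤ) - f y)
    (hcl : ∀ x ∈ T, ∀ y ∈ T, (d : ℤ) ∣ z x - z y ∨ (d : ℤ) ∣ z x + z y) :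
    (T.card : ℝ) ≤ 2 * ((L : ℝ) / d + 1) := by
  classical
  have hd' : (0 : ℝ) < d := by exact_mod_cast hd
  -- one class
  have one : ∀ T' : Finset ι, T' ⊆ T → (∀ x ∈ T', ∀ y ∈ T', (d : ℤ) ∣ z x - z y) →
      (T'.card : ℝ) ≤ (L : ℝ) / d + 1 := by
    intro T' hT' h
    refine card_spaced T' (fun x => (f x : ℝ)) (a := 0) (L := L) hd' (Nat.cast_nonneg L) ?_ ?_
    · intro x hx
      refine ⟨Nat.cast_nonneg _, ?_⟩
      rw [zero_add]
      exact_mod_cast hf x (hT' hx)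
    · intro x hx y hy hne
      exact gap_of_dvd (fun h' => hne (hinj x (hT' hx) y (hT' hy) h'))
        (hz x (hT' hx) y (hT' hy) (h x hx y hy))
  rcases T.eq_empty_or_nonempty with he | ⟨x0, hx0⟩
  · rw [he, Finset.card_empty]
    push_cast
    positivity
  · have h1 := one (T.filter fun y => (d : ℤ) ∣ z x0 - z y) (Finset.filter_subset _ _) (by
      intro x hx y hy
      have hx2 := (Finset.mem_filter.1 hx).2
      have hy2 := (Finset.mem_filter.1 hy).2
      have : z x - z y = (z x0 - z y) - (z x0 - z x) := by ring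
      rw [this]
      exact dvd_sub hy2 hx2)
    have h2 := one (T.filter fun y => (d : ℤ) ∣ z x0 + z y) (Finset.filter_subset _ _) (by
      intro x hx y hy
      have hx2 := (Finset.mem_filter.1 hx).2
      have hy2 := (Finset.mem_filter.1 hy).2
      have : z x - z y = (z x0 + z x) - (z x0 + z y) := by ring
      rw [this]
      exact dvd_sub hx2 hy2)
    have hsub : T ⊆ (T.filter fun y => (d : ℤ) ∣ z x0 - z y) ∪
        (T.filter fun y => (d : ℤ) ∣ z x0 + z y) := by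
      intro y hy
      rcases hcl x0 hx0 y hy with h | h
      · exact Finset.mem_union_left _ (Finset.mem_filter.2 ⟨hy, h⟩)
      · exact Finset.mem_union_right _ (Finset.mem_filter.2 ⟨hy, h⟩)
    have h3 : (T.card : ℝ) ≤ ((T.filter fun y => (d : ℤ) ∣ z x0 - z y).card : ℝ) +
        ((T.filter fun y => (d : ℤ) ∣ z x0 + z y).card : ℝ) := by
      exact_mod_cast (Finset.card_le_card hsub).trans (Finset.card_union_le _ _)
    linarith

/-- squares modulo `p ^ 2` -/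
theorem sq_class {p : ℕ} (hp : p.Prime) (hp2 : 2 < p) {x y : ℤ} (hx : ¬ (p : ℤ) ∣ x)
    (h : ((p ^ 2 : ℕ) : ℤ) ∣ x ^ 2 - y ^ 2) :
    ((p ^ 2 : ℕ) : ℤ) ∣ x - y ∨ ((p ^ 2 : ℕ) : ℤ) ∣ x + y := by
  have hpZ : Prime (p : ℤ) := Nat.prime_iff_prime_int.1 hp
  have e : x ^ 2 - y ^ 2 = (x - y) * (x + y) := by ring
  rw [e] at h
  by_cases h1 : (p : ℤ) ∣ x - y
  · left
    have h2 : ¬ (p : ℤ) ∣ x + y := by
      intro h3
      have h4 : (p : ℤ) ∣ 2 * x := by
        have : 2 * x = (x - y) + (x + y) := by ring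
        rw [this]; exact dvd_add h1 h3
      rcases hpZ.dvd_or_dvd h4 with h5 | h5
      · have h6 := Int.le_of_dvd (by norm_num) h5
        omega
      · exact hx h5
    have hc : IsCoprime ((p ^ 2 : ℕ) : ℤ) (x + y) := by
      push_cast
      exact ((Prime.coprime_iff_not_dvd hpZ).2 h2).pow_left
    exact hc.dvd_of_dvd_mul_right h
  · right
    have hc : IsCoprime ((p ^ 2 : ℕ) : ℤ) (x - y) := by
      push_cast
      exact ((Prime.coprime_iff_not_dvd hpZ).2 h1).pow_left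
    exact hc.dvd_of_dvd_mul_left h

/-- the quadratic form -/
def qf (e : ℤ) (u v : ℕ) : ℤ := (u : ℤ) ^ 2 - e * (v : ℤ) ^ 2

/-- good pairs -/
def GoodS (Q W : ℕ) (es : Finset ℤ) (x : ℕ × ℕ) : Prop :=
  Nat.Coprime (1 + Q * x.1) (Q * x.2) ∧ ∀ p : ℕ, p.Prime → W < p → ∀ e ∈ es,
    ¬ ((p ^ 2 : ℕ) : ℤ) ∣ qf e (1 + Q * x.1) (Q * x.2)

/-- the box -/
def Box (I J : ℕ) : Finset (ℕ × ℕ) := range I ×ˢ range (J + 1)

theorem mem_Box {I J : ℕ} {x : ℕ × ℕ} : x ∈ Box I J ↔ x.1 < I ∧ x.2 ≤ J := by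
  unfold Box
  rw [Finset.mem_product, Finset.mem_range, Finset.mem_range, Nat.lt_succ_iff]

/-- rows, each with at most `b` elements -/
theorem rows_le {T : Finset (ℕ × ℕ)} {F : Finset ℕ} (hF : ∀ x ∈ T, x.1 ∈ F) {b : ℝ} (hb : 0 ≤ b)
    (h : ∀ i ∈ F, (((T.filter fun x => x.1 = i)).card : ℝ) ≤ b) : (T.card : ℝ) ≤ F.card * b := by
  classical
  have h1 := card_fib T (fun x => x.1) b (by
    intro k hk
    obtain ⟨x, hx, rfl⟩ := Finset.mem_image.1 hk
    exact h x.1 (hF x hx))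
  refine h1.trans (mul_le_mul_of_nonneg_right ?_ hb)
  have : (T.image fun x => x.1).card ≤ F.card := by
    apply Finset.card_le_card
    intro k hk
    obtain ⟨x, hx, rfl⟩ := Finset.mem_image.1 hk
    exact hF x hx
  exact_mod_cast this

theorem cols_le {T : Finset (ℕ × ℕ)} {F : Finset ℕ} (hF : ∀ x ∈ T, x.2 ∈ F) {b : ℝ} (hb : 0 ≤ b)
    (h : ∀ i ∈ F, (((T.filter fun x => x.2 = i)).card : ℝ) ≤ b) : (T.card : ℝ) ≤ F.card * b := by
  classical
  have h1 := card_fib T (fun x => x.2) b (by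
    intro k hk
    obtain ⟨x, hx, rfl⟩ := Finset.mem_image.1 hk
    exact h x.2 (hF x hx))
  refine h1.trans (mul_le_mul_of_nonneg_right ?_ hb)
  have : (T.image fun x => x.2).card ≤ F.card := by
    apply Finset.card_le_card
    intro k hk
    obtain ⟨x, hx, rfl⟩ := Finset.mem_image.1 hk
    exact hF x hx
  exact_mod_cast this

end Pool.Agent.TH562.R2
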