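import Mathlib
import Pool.Agent.TH562.R2.Rank
import Pool.Agent.TH562.R2.Sv
import Pool.Agent.TH562.R2.Form

/-! A good pair gives a squarefree twist of rank at least two. -/

set_option autoImplicit false

namespace Pool.Agent.TH562.R2

open Pool.Agent.H918R3

/-- two of the forms are not divisible by the same large prime -/
theorem not_both {e e' : ℤ} {u v p : ℕ} (hp : p.Prime) (hcop : Nat.Coprime u v)
    (hne : ¬ (p : ℤ) ∣ e - e') (h1 : (p : ℤ) ∣ qf e u v) : ¬ (p : ℤ) ∣ qf e' u v := by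
  intro h2
  have hpZ : Prime (p : ℤ) := Nat.prime_iff_prime_int.1 hp
  unfold qf at h1 h2
  have h3 : (p : ℤ) ∣ (e - e') * (v : ℤ) ^ 2 := by
    have : (e - e') * (v : ℤ) ^ 2 = ((u : ℤ) ^ 2 - e' * (v : ℤ) ^ 2) -
      ((u : ℤ) ^ 2 - e * (v : ℤ) ^ 2) := by ring
    rw [this]; exact dvd_sub h2 h1
  rcases hpZ.dvd_or_dvd h3 with h4 | h4
  · exact hne h4
  · have h5 := hpZ.dvd_of_dvd_pow h4
    have h6 : (p : ℤ) ∣ (u : ℤ) ^ 2 := by
      have h7 : (p : ℤ) ∣ e * (v : ℤ) ^ 2 := Dvd.dvd.mul_left (Dvd.dvd.pow h5 two_ne_zero) _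
      have h8 := dvd_add h1 h7
      have e1 : (u : ℤ) ^ 2 - e * (v : ℤ) ^ 2 + e * (v : ℤ) ^ 2 = (u : ℤ) ^ 2 := by ring
      rwa [e1] at h8
    have h7 := hpZ.dvd_of_dvd_pow h6
    have h8 : p ∣ u := Int.natCast_dvd_natCast.1 h7
    have h9 : p ∣ v := Int.natCast_dvd_natCast.1 h5
    exact hp.one_lt.ne' (Nat.Coprime.eq_one_of_dvd (hcop.coprime_dvd_left h8) h9)

/-- the forms are `1` modulo `Q` -/
theorem qf_mod (e : ℤ) (Q i j : ℕ) : (Q : ℤ) ∣ qf e (1 + Q * i) (Q * j) - 1 := by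
  refine ⟨2 * i + Q * (i : ℤ) ^ 2 - e * Q * (j : ℤ) ^ 2, ?_⟩
  unfold qf
  push_cast
  ring

theorem arith {e1 e2 e3 hs g : ℤ} (h12 : e1 ≠ e2) (h13 : e1 ≠ e3) (h23 : e2 ≠ e3)
    (hg : g ≠ 0) (hs0 : hs ≠ 0)
    (hhs : hs * g ^ 2 = (e1 - e2) * (e2 - e3) * (e3 - e1) *
      ((e1 - e2) ^ 2 + (e1 - e2) * (e2 - e3) + (e2 - e3) ^ 2))
    {a b c : ℤ} (ha : a = (e1 - e2) ^ 2 * (e2 - e3) * (e3 - e1) ^ 3)
    (hb : b = (e1 - e2) ^ 3 * (e2 - e3) ^ 2 * (e3 - e1))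
    (hc : c = (e1 - e2) * (e2 - e3) ^ 3 * (e3 - e1) ^ 2)
    {h : ℕ} (hh : Squarefree h) (hhabs : (h : ℤ) = |hs|)
    {Q W M : ℕ} (hMQ : M ∣ Q)
    (hQW' : ∀ p : ℕ, p.Prime → p ≤ W → p ∣ Q)
    (hWhs : ∀ p : ℕ, p.Prime → W < p → ¬ (p : ℤ) ∣ hs * (e1 - e2) * (e2 - e3) * (e3 - e1) ∧
      ¬ (p : ℤ) ∣ a - b ∧ ¬ (p : ℤ) ∣ b - c ∧ ¬ (p : ℤ) ∣ c - a)
    {i j : ℕ} (hj : 0 < Q * j) (hgood : GoodS Q W {a, b, c} (i, j))
    (hA : 1 < qf a (1 + Q * i) (Q * j)) (hB : 1 < qf b (1 + Q * i) (Q * j))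
    (hC : 1 < qf c (1 + Q * i) (Q * j)) :
    ∃ d : ℕ, ((h * d : ℕ) : ℤ) = FZ h a b c (1 + Q * i) (Q * j) ∧ Squarefree (h * d) ∧
      d ≡ 1 [MOD M] ∧
      ∃ P R : Pt ((e1 : ℚ) * ((hs.sign * (h * d : ℕ) : ℤ) : ℚ))
        ((e2 : ℚ) * ((hs.sign * (h * d : ℕ) : ℤ) : ℚ)) ((e3 : ℚ) * ((hs.sign * (h * d : ℕ) : ℤ) : ℚ)),
        ∀ m n : ℤ, m • P + n • R = 0 → m = 0 ∧ n = 0 := by
  obtain ⟨hcop, hg2⟩ := hgood
  simp only at hcop hg2
  set u : ℕ := 1 + Q * i with hu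
  set v : ℕ := Q * j with hv
  set A : ℤ := qf a u v with hAdef
  set B : ℤ := qf b u v with hBdef
  set C : ℤ := qf c u v with hCdef
  have mA := qf_mod a Q i j
  have mB := qf_mod b Q i j
  have mC := qf_mod c Q i j
  rw [← hu, ← hv] at mA mB mC
  rw [← hAdef] at mA
  rw [← hBdef] at mB
  rw [← hCdef] at mC
  -- small primes
  have small : ∀ {p : ℕ} {X : ℤ}, p.Prime → (Q : ℤ) ∣ X - 1 → (p : ℤ) ∣ X → W < p := by
    intro p X hp hX hd
    by_contra hcon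
    push Not at hcon
    have h1 : (p : ℤ) ∣ Q := Int.natCast_dvd_natCast.2 (hQW' p hp hcon)
    have h2 := dvd_sub hd (h1.trans hX)
    have e : X - (X - 1) = 1 := by ring
    rw [e] at h2
    exact (Nat.prime_iff_prime_int.1 hp).not_isUnit (isUnit_of_dvd_one h2)
  have sep : ∀ {e e' e'' : ℤ}, e ∈ ({a, b, c} : Finset ℤ) → 1 < qf e u v → (Q : ℤ) ∣ qf e u v - 1 →
      (∀ p : ℕ, p.Prime → W < p → ¬ (p : ℤ) ∣ e - e' ∧ ¬ (p : ℤ) ∣ e - e'') →
      ∃ p : ℕ, Sep p (qf e u v) (qf e' u v) (qf e'' u v)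
        (hs * (e1 - e2) * (e2 - e3) * (e3 - e1)) := by
    intro e e' e'' he h1 hQ1 hne
    have hn1 : (qf e u v).natAbs ≠ 1 := by omega
    obtain ⟨p, hp, hpd⟩ := Nat.exists_prime_and_dvd hn1
    have hpd' : (p : ℤ) ∣ qf e u v := Int.natCast_dvd.2 hpd
    have hpW := small hp hQ1 hpd'
    refine ⟨p, hp, hpd', ?_, ?_, ?_, (hWhs p hp hpW).1⟩
    · have := hg2 p hp hpW e he
      push_cast at this
      exact this
    · exact not_both hp hcop (hne p hp hpW).1 hpd'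
    · exact not_both hp hcop (hne p hp hpW).2 hpd'
  have nsub : ∀ {p : ℕ} {x y : ℤ}, ¬ (p : ℤ) ∣ x - y → ¬ (p : ℤ) ∣ y - x := by
    intro p x y h h'
    apply h
    have : x - y = -(y - x) := by ring
    rw [this]
    exact (dvd_neg).2 h'
  obtain ⟨pA, sA⟩ := sep (e := a) (e' := b) (e'' := c) (by simp) hA mA (fun p hp hpW =>
    ⟨(hWhs p hp hpW).2.1, nsub (hWhs p hp hpW).2.2.2⟩)
  obtain ⟨pB, sB⟩ := sep (e := b) (e' := c) (e'' := a) (by simp) hB mB (fun p hp hpW =>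
    ⟨(hWhs p hp hpW).2.2.1, nsub (hWhs p hp hpW).2.1⟩)
  obtain ⟨pC, sC⟩ := sep (e := c) (e' := a) (e'' := b) (by simp) hC mC (fun p hp hpW =>
    ⟨(hWhs p hp hpW).2.2.2, nsub (hWhs p hp hpW).2.2.1⟩)
  -- the number d
  have hABC : 0 < A * B * C := by positivity
  have hABC1 : (Q : ℤ) ∣ A * B * C - 1 := by
    have e : A * B * C - 1 = (A - 1) * (B * C) + (B - 1) * C + (C - 1) := by ring
    rw [e]
    exact dvd_add (dvd_add (Dvd.dvd.mul_right mA _) (Dvd.dvd.mul_right mB _)) mC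
  set d : ℕ := (A * B * C).toNat with hd
  have hdZ : (d : ℤ) = A * B * C := Int.toNat_of_nonneg hABC.le
  have hdF : ((h * d : ℕ) : ℤ) = FZ h a b c u v := by
    push_cast
    rw [hdZ]
    rfl
  refine ⟨d, hdF, ?_, ?_, ?_⟩
  · -- squarefree
    rw [Nat.squarefree_iff_prime_squarefree]
    intro p hp hpd
    have hpZ : Prime (p : ℤ) := Nat.prime_iff_prime_int.1 hp
    have hpd' : ((p : ℤ) * p) ∣ h * (A * B * C) := by
      rw [← hdZ]
      exact_mod_cast hpd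
    by_cases hpA : (p : ℤ) ∣ A * B * C
    · have hpW := small hp hABC1 hpA
      have hph : ¬ (p : ℤ) ∣ h := by
        intro hph
        apply (hWhs p hp hpW).1
        have h1 : (p : ℤ) ∣ hs := by
          rw [hhabs] at hph
          exact (dvd_abs _ _).1 hph
        exact Dvd.dvd.mul_right (Dvd.dvd.mul_right (Dvd.dvd.mul_right h1 _) _) _
      have hc1 : IsCoprime ((p : ℤ) * p) (h : ℤ) := by
        have : IsCoprime (p : ℤ) (h : ℤ) := (Prime.coprime_iff_not_dvd hpZ).2 hph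
        exact IsCoprime.mul_left this this
      have h1 : ((p : ℤ) * p) ∣ A * B * C := hc1.dvd_of_dvd_mul_left hpd'
      have cop : ∀ {X : ℤ}, ¬ (p : ℤ) ∣ X → IsCoprime ((p : ℤ) * p) X := by
        intro X hX
        have : IsCoprime (p : ℤ) X := (Prime.coprime_iff_not_dvd hpZ).2 hX
        exact IsCoprime.mul_left this this
      have hsq : ∀ {e : ℤ}, e ∈ ({a, b, c} : Finset ℤ) → ¬ ((p : ℤ) * p) ∣ qf e u v := by
        intro e he h2
        apply hg2 p hp hpW e he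
        push_cast
        rw [pow_two]
        exact h2
      obtain ⟨w1, w2, w3, w4⟩ := hWhs p hp hpW
      rcases hpZ.dvd_or_dvd hpA with h2 | h2
      · rcases hpZ.dvd_or_dvd h2 with h3 | h3
        · have nB : ¬ (p : ℤ) ∣ B := not_both hp hcop w2 h3
          have nC : ¬ (p : ℤ) ∣ C := not_both hp hcop (nsub w4) h3
          have h4 : ((p : ℤ) * p) ∣ A :=
            (cop nB).dvd_of_dvd_mul_right ((cop nC).dvd_of_dvd_mul_right h1)
          exact hsq (by simp) h4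
        · have nA : ¬ (p : ℤ) ∣ A := not_both hp hcop (nsub w2) h3
          have nC : ¬ (p : ℤ) ∣ C := not_both hp hcop w3 h3
          have h4 : ((p : ℤ) * p) ∣ B :=
            (cop nA).dvd_of_dvd_mul_left ((cop nC).dvd_of_dvd_mul_right h1)
          exact hsq (by simp) h4
      · have nA : ¬ (p : ℤ) ∣ A := not_both hp hcop w4 h2
        have nB : ¬ (p : ℤ) ∣ B := not_both hp hcop (nsub w3) h2
        have h4 : ((p : ℤ) * p) ∣ C := by
          have h5 : ((p : ℤ) * p) ∣ A * (B * C) := by rw [← mul_assoc]; exact h1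
          exact (cop nB).dvd_of_dvd_mul_left ((cop nA).dvd_of_dvd_mul_left h5)
        exact hsq (by simp) h4
    · have hc1 : IsCoprime ((p : ℤ) * p) (A * B * C) := by
        have : IsCoprime (p : ℤ) (A * B * C) := (Prime.coprime_iff_not_dvd hpZ).2 hpA
        exact IsCoprime.mul_left this this
      have h1 : ((p : ℤ) * p) ∣ (h : ℤ) := hc1.dvd_of_dvd_mul_right hpd'
      have h2 : p * p ∣ h := by exact_mod_cast h1
      exact (Nat.squarefree_iff_prime_squarefree.1 hh) p hp h2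
  · -- residue
    have h1 : (M : ℤ) ∣ (d : ℤ) - 1 := by
      rw [hdZ]
      exact (Int.natCast_dvd_natCast.2 hMQ).trans hABC1
    have h2 : 1 ≡ d [MOD M] := by
      rw [Nat.modEq_iff_dvd]
      push_cast
      exact h1
    exact h2.symm
  · -- rank
    have hsign : ((hs.sign * (h * d : ℕ) : ℤ)) = hs * (A * B * C) := by
      push_cast
      rw [hdZ, hhabs, ← mul_assoc, Int.sign_mul_abs]
    rw [hsign]
    have hvpos : ((v : ℕ) : ℤ) ≠ 0 := by
      have : 0 < v := hj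
      omega
    have hupos : ((u : ℕ) : ℤ) ≠ 0 := by
      have : 0 < u := by rw [hu]; omega
      omega
    exact rank_two (u := (u : ℤ)) (v := (v : ℤ)) h12 h13 h23 hg hs0 hhs hupos hvpos
      (A := A) (B := B) (C := C) (by rw [hAdef, ← ha]; rfl) (by rw [hBdef, ← hb]; rfl)
      (by rw [hCdef, ← hc]; rfl) sA sB sC rfl

end Pool.Agent.TH562.R2
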