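import Mathlib
import Pool.Agent.TH562.R2.Sv

/-! The number of bad pairs in the box. -/

set_option autoImplicit false

namespace Pool.Agent.TH562.R2

open Finset Pool.Agent.TH562.TW

open Classical in
theorem bad_count {Q W : ℕ} {es : Finset ℤ} (hW : 2 ≤ W)
    (hQW : ∀ p : ℕ, p.Prime → W < p → ¬ p ∣ Q)
    (hQW' : ∀ p : ℕ, p.Prime → p ≤ W → p ∣ Q)
    (hes : ∀ e ∈ es, e ≠ 0 ∧ |e| ≤ W)
    {I J I1 S X : ℕ} (hS : ∀ i < I, 1 + Q * i ≤ S) (hJ : W ≤ J)
    (hX : ∀ x ∈ Box I J, I1 ≤ x.1 → ∀ e ∈ es, 0 < qf e (1 + Q * x.1) (Q * x.2) ∧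
      qf e (1 + Q * x.1) (Q * x.2) < ((X + 1) ^ 2 : ℕ)) :
    (((Box I J).filter fun x => ¬ GoodS Q W es x).card : ℝ) ≤
      I1 * (J + 1) +
      ((I : ℝ) * J / W + ((I : ℝ) + J) * (1 + Real.log S) + S) +
      es.card * (2 * ((I : ℝ) * J / W + I * Nat.primeCounting J)) +
      es.card * (2 * (((J : ℝ) + 1) * (I / J + Nat.primeCounting X))) := by
  have hW1 : 1 ≤ W := by omega
  have hJ1 : 1 ≤ J := by omega
  have hW' : (0 : ℝ) < W := by exact_mod_cast hW1
  have hJ' : (0 : ℝ) < J := by exact_mod_cast hJ1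
  set R := Box I J with hR
  set B0 := R.filter fun x => x.1 < I1 with hB0
  set T1 : ℕ → Finset (ℕ × ℕ) := fun p => R.filter fun x => p ∣ 1 + Q * x.1 ∧ p ∣ Q * x.2
    with hT1
  set T2 : ℕ → ℤ → Finset (ℕ × ℕ) := fun p e => R.filter fun x =>
    Nat.Coprime (1 + Q * x.1) (Q * x.2) ∧
      ((p ^ 2 : ℕ) : ℤ) ∣ qf e (1 + Q * x.1) (Q * x.2) with hT2
  have hcard0 : ∀ {p : ℕ} {e : ℤ}, p.Prime → W < p → e ∈ es → ¬ (p : ℤ) ∣ e := by
    intro p e hp hpW he hd
    obtain ⟨h1, h2⟩ := hes e he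
    have h3 := Int.le_of_dvd (abs_pos.2 h1) ((dvd_abs _ _).2 hd)
    omega
  -- coprimality to p
  have hcop : ∀ {p : ℕ} {e : ℤ} {x : ℕ × ℕ}, p.Prime → W < p → e ∈ es → x ∈ T2 p e →
      ¬ (p : ℤ) ∣ ((1 + Q * x.1 : ℕ) : ℤ) ∧ ¬ (p : ℤ) ∣ ((Q * x.2 : ℕ) : ℤ) := by
    intro p e x hp hpW he hx
    obtain ⟨_, hc, hd⟩ := Finset.mem_filter.1 hx
    have hpZ : Prime (p : ℤ) := Nat.prime_iff_prime_int.1 hp
    have hd1 : (p : ℤ) ∣ qf e (1 + Q * x.1) (Q * x.2) := by
      refine dvd_trans ?_ hd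
      push_cast
      exact dvd_pow_self _ two_ne_zero
    unfold qf at hd1
    have hne : ¬ ((p : ℤ) ∣ ((1 + Q * x.1 : ℕ) : ℤ) ∧ (p : ℤ) ∣ ((Q * x.2 : ℕ) : ℤ)) := by
      rintro ⟨h1, h2⟩
      have h3 : p ∣ 1 + Q * x.1 := Int.natCast_dvd_natCast.1 h1
      have h4 : p ∣ Q * x.2 := Int.natCast_dvd_natCast.1 h2
      exact hp.one_lt.ne' (Nat.Coprime.eq_one_of_dvd (hc.coprime_dvd_left h3) h4)
    constructor
    · intro h1
      apply hne
      refine ⟨h1, ?_⟩
      have h2 : (p : ℤ) ∣ e * ((Q * x.2 : ℕ) : ℤ) ^ 2 := by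
        have h3 : (p : ℤ) ∣ ((1 + Q * x.1 : ℕ) : ℤ) ^ 2 := Dvd.dvd.pow h1 two_ne_zero
        have h4 := dvd_sub h3 hd1
        have e1 : ((1 + Q * x.1 : ℕ) : ℤ) ^ 2 - (((1 + Q * x.1 : ℕ) : ℤ) ^ 2 -
          e * ((Q * x.2 : ℕ) : ℤ) ^ 2) = e * ((Q * x.2 : ℕ) : ℤ) ^ 2 := by ring
        rwa [e1] at h4
      rcases hpZ.dvd_or_dvd h2 with h3 | h3
      · exact absurd h3 (hcard0 hp hpW he)
      · exact hpZ.dvd_of_dvd_pow h3
    · intro h1
      apply hne
      refine ⟨?_, h1⟩
      have h2 : (p : ℤ) ∣ ((1 + Q * x.1 : ℕ) : ℤ) ^ 2 := by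
        have h3 : (p : ℤ) ∣ e * ((Q * x.2 : ℕ) : ℤ) ^ 2 :=
          Dvd.dvd.mul_left (Dvd.dvd.pow h1 two_ne_zero) _
        have h4 := dvd_add hd1 h3
        have e1 : (((1 + Q * x.1 : ℕ) : ℤ) ^ 2 - e * ((Q * x.2 : ℕ) : ℤ) ^ 2) +
          e * ((Q * x.2 : ℕ) : ℤ) ^ 2 = ((1 + Q * x.1 : ℕ) : ℤ) ^ 2 := by ring
        rwa [e1] at h4
      exact hpZ.dvd_of_dvd_pow h2
  set T3 : ℕ → ℤ → Finset (ℕ × ℕ) := fun p e => (T2 p e).filter fun x => I1 ≤ x.1 with hT3
  -- membership
  have hsub : (R.filter fun x => ¬ GoodS Q W es x) ⊆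
      ((B0 ∪ (Pr W S).biUnion T1) ∪ es.biUnion fun e => (Pr W J).biUnion fun p => T2 p e) ∪
        es.biUnion fun e => (Pr J X).biUnion fun p => T3 p e := by
    intro x hx
    obtain ⟨hxR, hbad⟩ := Finset.mem_filter.1 hx
    obtain ⟨hxI, hxJ⟩ := mem_Box.1 hxR
    by_cases h0 : x.1 < I1
    · exact Finset.mem_union_left _ (Finset.mem_union_left _ (Finset.mem_union_left _
        (Finset.mem_filter.2 ⟨hxR, h0⟩)))
    push Not at h0
    by_cases hc : Nat.Coprime (1 + Q * x.1) (Q * x.2)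
    · unfold GoodS at hbad
      push Not at hbad
      obtain ⟨p, hp, hpW, e, he, hpd⟩ := hbad hc
      have hxT : x ∈ T2 p e := Finset.mem_filter.2 ⟨hxR, hc, hpd⟩
      rcases le_or_gt p J with hpJ | hpJ
      · refine Finset.mem_union_left _ (Finset.mem_union_right _ ?_)
        exact Finset.mem_biUnion.2 ⟨e, he, Finset.mem_biUnion.2 ⟨p, mem_Pr.2 ⟨⟨hpW, hpJ⟩, hp⟩, hxT⟩⟩
      · refine Finset.mem_union_right _ ?_
        refine Finset.mem_biUnion.2 ⟨e, he, Finset.mem_biUnion.2 ⟨p, mem_Pr.2 ⟨⟨hpJ, ?_⟩, hp⟩,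
          Finset.mem_filter.2 ⟨hxT, h0⟩⟩⟩
        obtain ⟨h1, h2⟩ := hX x hxR h0 e he
        have h3 := Int.le_of_dvd h1 hpd
        have h4 : ((p ^ 2 : ℕ) : ℤ) < ((X + 1) ^ 2 : ℕ) := lt_of_le_of_lt h3 h2
        have h5 : p ^ 2 < (X + 1) ^ 2 := by exact_mod_cast h4
        have h6 : p < X + 1 := lt_of_pow_lt_pow_left₀ 2 (by omega) h5
        omega
    · refine Finset.mem_union_left _ (Finset.mem_union_left _ (Finset.mem_union_right _ ?_))
      obtain ⟨p, hp, h1, h2⟩ := Nat.Prime.not_coprime_iff_dvd.1 hc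
      have hpW : W < p := by
        by_contra hcon
        push Not at hcon
        have h3 := hQW' p hp hcon
        have h4 : p ∣ 1 := (Nat.dvd_add_left (Dvd.dvd.mul_right h3 x.1)).1 h1
        exact hp.one_lt.ne' (Nat.dvd_one.1 h4)
      refine Finset.mem_biUnion.2 ⟨p, mem_Pr.2 ⟨⟨hpW, ?_⟩, hp⟩, Finset.mem_filter.2 ⟨hxR, h1, h2⟩⟩
      exact (Nat.le_of_dvd (by omega) h1).trans (hS x.1 hxI)
  -- bounds
  have c0 : (B0.card : ℝ) ≤ I1 * (J + 1) := by
    have h := rows_le (T := B0) (F := range I1) (b := (J : ℝ) + 1)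
      (fun x hx => Finset.mem_range.2 (Finset.mem_filter.1 hx).2) (by positivity) (by
        intro i _
        have h1 : ((B0.filter fun x => x.1 = i).card) ≤ (range (J + 1)).card := by
          apply Finset.card_le_card_of_injOn (fun x => x.2)
          · intro x hx
            have hx' := (Finset.mem_filter.1 (Finset.mem_coe.1 hx)).1
            have := (mem_Box.1 (Finset.mem_filter.1 hx').1).2
            exact Finset.mem_coe.2 (Finset.mem_range.2 (Nat.lt_succ_of_le this))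
          · intro x hx y hy hxy
            have h1 := (Finset.mem_filter.1 (Finset.mem_coe.1 hx)).2
            have h2 := (Finset.mem_filter.1 (Finset.mem_coe.1 hy)).2
            exact Prod.ext (h1.trans h2.symm) hxy
        rw [Finset.card_range] at h1
        exact_mod_cast h1)
    rwa [Finset.card_range] at h
  have bi : ∀ {ι : Type} (F : Finset ι) (T : ι → Finset (ℕ × ℕ)) (b : ι → ℝ),
      (∀ p ∈ F, ((T p).card : ℝ) ≤ b p) → ((F.biUnion T).card : ℝ) ≤ ∑ p ∈ F, b p := by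
    intro ι F T b hb
    have h1 : ((F.biUnion T).card : ℝ) ≤ ∑ p ∈ F, ((T p).card : ℝ) := by
      exact_mod_cast (Finset.card_biUnion_le : (F.biUnion T).card ≤ ∑ p ∈ F, (T p).card)
    exact h1.trans (Finset.sum_le_sum hb)
  have hpp : ∀ {w X p : ℕ}, p ∈ Pr w X → 0 < (p : ℝ) := by
    intro w X p hp
    have := (mem_Pr.1 hp).2.pos
    exact_mod_cast this
  have hdiff : ∀ {p : ℕ} {x y : ℕ}, p.Prime → W < p → ∀ k : ℕ,
      ((p ^ k : ℕ) : ℤ) ∣ ((Q * x : ℕ) : ℤ) - ((Q * y : ℕ) : ℤ) → ((p ^ k : ℕ) : ℤ) ∣ (x : ℤ) - y := by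
    intro p x y hp hpW k h
    have e : ((Q * x : ℕ) : ℤ) - ((Q * y : ℕ) : ℤ) = (Q : ℤ) * ((x : ℤ) - y) := by
      push_cast; ring
    rw [e] at h
    exact cop_cancel hp (hQW p hp hpW) h
  have c1 : (((Pr W S).biUnion T1).card : ℝ) ≤
      (I : ℝ) * J / W + ((I : ℝ) + J) * (1 + Real.log S) + S := by
    refine (bi (Pr W S) T1 (fun p : ℕ => ((I : ℝ) / p + 1) * ((J : ℝ) / p + 1)) ?_).trans ?_
    · intro p hp
      obtain ⟨⟨hpW, _⟩, hpp'⟩ := mem_Pr.1 hp
      have hpQ := hQW p hpp' hpW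
      have hp0 : (0 : ℝ) < p := by exact_mod_cast hpp'.pos
      have h := rows_le (T := T1 p) (F := (range I).filter fun i => p ∣ 1 + Q * i)
        (b := (J : ℝ) / p + 1)
        (fun x hx => by
          obtain ⟨h1, h2, _⟩ := Finset.mem_filter.1 hx
          exact Finset.mem_filter.2 ⟨Finset.mem_range.2 (mem_Box.1 h1).1, h2⟩) (by positivity) (by
          intro i _
          refine card_spaced _ (fun x : ℕ × ℕ => (x.2 : ℝ)) (a := 0) (L := J) hp0
            (Nat.cast_nonneg J) ?_ ?_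
          · intro x hx
            have hx' := (mem_Box.1 (Finset.mem_filter.1 (Finset.mem_filter.1 hx).1).1).2
            refine ⟨Nat.cast_nonneg _, ?_⟩
            rw [zero_add]
            exact_mod_cast hx'
          · intro x hx y hy hne
            obtain ⟨hx1, hx2⟩ := Finset.mem_filter.1 hx
            obtain ⟨hy1, hy2⟩ := Finset.mem_filter.1 hy
            apply gap_of_dvd
            · intro h'
              exact hne (Prod.ext (hx2.trans hy2.symm) h')
            · have h1 := (Finset.mem_filter.1 hx1).2.2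
              have h2 := (Finset.mem_filter.1 hy1).2.2
              have h3 := hdiff hpp' hpW 1 (x := x.2) (y := y.2) (by
                rw [pow_one]
                exact dvd_sub (Int.natCast_dvd_natCast.2 h1) (Int.natCast_dvd_natCast.2 h2))
              rwa [pow_one] at h3)
      refine h.trans ?_
      exact mul_le_mul_of_nonneg_right (card_s hpp' hpQ I) (by positivity)
    · have e : ∑ p ∈ Pr W S, ((I : ℝ) / p + 1) * ((J : ℝ) / p + 1) =
          (I : ℝ) * J * ∑ p ∈ Pr W S, 1 / ((p : ℝ) ^ 2) +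
          ((I : ℝ) + J) * ∑ p ∈ Pr W S, 1 / (p : ℝ) + (Pr W S).card := by
        have : ((Pr W S).card : ℝ) = ∑ p ∈ Pr W S, (1 : ℝ) := by
          rw [Finset.sum_const, nsmul_eq_mul, mul_one]
        rw [this, Finset.mul_sum, Finset.mul_sum, ← Finset.sum_add_distrib,
          ← Finset.sum_add_distrib]
        refine Finset.sum_congr rfl fun p hp => ?_
        have := hpp hp
        field_simp
        ring
      rw [e]
      have h1 := mul_le_mul_of_nonneg_left (Pr_sq W S hW1) (by positivity : (0 : ℝ) ≤ (I : ℝ) * J)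
      have h2 := mul_le_mul_of_nonneg_left (Pr_inv W S hW1) (by positivity : (0 : ℝ) ≤ (I : ℝ) + J)
      have h3 : ((Pr W S).card : ℝ) ≤ S := by
        have : (Pr W S).card ≤ S := by
          calc (Pr W S).card ≤ (Ioc W S).card := Finset.card_filter_le _ _
            _ = S - W := Nat.card_Ioc _ _
            _ ≤ S := Nat.sub_le _ _
        exact_mod_cast this
      have h4 : (I : ℝ) * J * (1 / W) = (I : ℝ) * J / W := by ring
      linarith
  have c2 : ((es.biUnion fun e => (Pr W J).biUnion fun p => T2 p e).card : ℝ) ≤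
      es.card * (2 * ((I : ℝ) * J / W + I * Nat.primeCounting J)) := by
    refine (bi es (fun e => (Pr W J).biUnion fun p => T2 p e)
      (fun _ => 2 * ((I : ℝ) * J / W + I * Nat.primeCounting J)) ?_).trans
      (le_of_eq (by rw [Finset.sum_const, nsmul_eq_mul]))
    intro e he
    refine (bi (Pr W J) (fun p => T2 p e)
      (fun p : ℕ => (I : ℝ) * (2 * ((J : ℝ) / (p : ℝ) ^ 2 + 1))) ?_).trans ?_
    · intro p hp
      obtain ⟨⟨hpW, _⟩, hpp'⟩ := mem_Pr.1 hp
      have h := rows_le (T := T2 p e) (F := range I) (b := 2 * ((J : ℝ) / (p : ℝ) ^ 2 + 1))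
        (fun x hx => Finset.mem_range.2 (mem_Box.1 (Finset.mem_filter.1 hx).1).1) (by positivity)
        (by
          intro i _
          have h1 := card_two ((T2 p e).filter fun x => x.1 = i) (fun x => x.2)
            (fun x hx y hy hxy => Prod.ext ((Finset.mem_filter.1 hx).2.trans
              (Finset.mem_filter.1 hy).2.symm) hxy) (L := J)
            (fun x hx => (mem_Box.1 (Finset.mem_filter.1 (Finset.mem_filter.1 hx).1).1).2)
            (d := p ^ 2) (pow_pos hpp'.pos 2) (fun x => ((Q * x.2 : ℕ) : ℤ))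
            (fun x _ y _ h => hdiff hpp' hpW 2 h)
            (fun x hx y hy => by
              obtain ⟨hx1, hx2⟩ := Finset.mem_filter.1 hx
              obtain ⟨hy1, hy2⟩ := Finset.mem_filter.1 hy
              refine sq_class hpp' (by omega) (hcop hpp' hpW he hx1).2 ?_
              have hxd := (Finset.mem_filter.1 hx1).2.2
              have hyd := (Finset.mem_filter.1 hy1).2.2
              unfold qf at hxd hyd
              rw [hx2] at hxd
              rw [hy2] at hyd
              have h2 := dvd_sub hyd hxd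
              have h3 : ((p ^ 2 : ℕ) : ℤ) ∣ e * (((Q * x.2 : ℕ) : ℤ) ^ 2 - ((Q * y.2 : ℕ) : ℤ) ^ 2) := by
                have e3 : e * (((Q * x.2 : ℕ) : ℤ) ^ 2 - ((Q * y.2 : ℕ) : ℤ) ^ 2) =
                  (((1 + Q * i : ℕ) : ℤ) ^ 2 - e * ((Q * y.2 : ℕ) : ℤ) ^ 2) -
                  (((1 + Q * i : ℕ) : ℤ) ^ 2 - e * ((Q * x.2 : ℕ) : ℤ) ^ 2) := by ring
                rw [e3]
                exact h2
              have hc : IsCoprime ((p ^ 2 : ℕ) : ℤ) e := by
                push_cast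
                exact ((Prime.coprime_iff_not_dvd (Nat.prime_iff_prime_int.1 hpp')).2
                  (hcard0 hpp' hpW he)).pow_left
              exact hc.dvd_of_dvd_mul_left h3)
          push_cast at h1
          exact h1)
      rw [Finset.card_range] at h
      exact h
    · have e1 : ∑ p ∈ Pr W J, (I : ℝ) * (2 * ((J : ℝ) / (p : ℝ) ^ 2 + 1)) =
          2 * ((I : ℝ) * J * ∑ p ∈ Pr W J, 1 / ((p : ℝ) ^ 2) + I * (Pr W J).card) := by
        have : (I : ℝ) * ((Pr W J).card : ℝ) = ∑ p ∈ Pr W J, (I : ℝ) := by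
          rw [Finset.sum_const, nsmul_eq_mul]; ring
        rw [this, Finset.mul_sum, ← Finset.sum_add_distrib, Finset.mul_sum]
        refine Finset.sum_congr rfl fun p hp => ?_
        ring
      rw [e1]
      have h1 := mul_le_mul_of_nonneg_left (Pr_sq W J hW1) (by positivity : (0 : ℝ) ≤ (I : ℝ) * J)
      have h2 := mul_le_mul_of_nonneg_left (Pr_card W J) (Nat.cast_nonneg (α := ℝ) I)
      have h4 : (I : ℝ) * J * (1 / W) = (I : ℝ) * J / W := by ring
      linarith
  have c3 : ((es.biUnion fun e => (Pr J X).biUnion fun p => T3 p e).card : ℝ) ≤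
      es.card * (2 * (((J : ℝ) + 1) * (I / J + Nat.primeCounting X))) := by
    refine (bi es (fun e => (Pr J X).biUnion fun p => T3 p e)
      (fun _ => 2 * (((J : ℝ) + 1) * (I / J + Nat.primeCounting X))) ?_).trans
      (le_of_eq (by rw [Finset.sum_const, nsmul_eq_mul]))
    intro e he
    refine (bi (Pr J X) (fun p => T3 p e)
      (fun p : ℕ => ((J : ℝ) + 1) * (2 * ((I : ℝ) / (p : ℝ) ^ 2 + 1))) ?_).trans ?_
    · intro p hp
      obtain ⟨⟨hpJ, _⟩, hpp'⟩ := mem_Pr.1 hp
      have hpW : W < p := lt_of_le_of_lt hJ hpJ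
      have h := cols_le (T := T3 p e) (F := range (J + 1)) (b := 2 * ((I : ℝ) / (p : ℝ) ^ 2 + 1))
        (fun x hx => Finset.mem_range.2 (Nat.lt_succ_of_le
          (mem_Box.1 (Finset.mem_filter.1 (Finset.mem_filter.1 hx).1).1).2)) (by positivity)
        (by
          intro j _
          have h1 := card_two ((T3 p e).filter fun x => x.2 = j) (fun x => x.1)
            (fun x hx y hy hxy => Prod.ext hxy ((Finset.mem_filter.1 hx).2.trans
              (Finset.mem_filter.1 hy).2.symm)) (L := I)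
            (fun x hx => (mem_Box.1 (Finset.mem_filter.1 (Finset.mem_filter.1
              (Finset.mem_filter.1 hx).1).1).1).1.le)
            (d := p ^ 2) (pow_pos hpp'.pos 2) (fun x => ((1 + Q * x.1 : ℕ) : ℤ))
            (fun x _ y _ h => by
              apply hdiff hpp' hpW 2
              have e2 : ((1 + Q * x.1 : ℕ) : ℤ) - ((1 + Q * y.1 : ℕ) : ℤ) =
                ((Q * x.1 : ℕ) : ℤ) - ((Q * y.1 : ℕ) : ℤ) := by push_cast; ring
              rwa [e2] at h)
            (fun x hx y hy => by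
              obtain ⟨hx1, hx2⟩ := Finset.mem_filter.1 hx
              obtain ⟨hy1, hy2⟩ := Finset.mem_filter.1 hy
              have hx3 := (Finset.mem_filter.1 hx1).1
              have hy3 := (Finset.mem_filter.1 hy1).1
              refine sq_class hpp' (by omega) (hcop hpp' hpW he hx3).1 ?_
              have hxd := (Finset.mem_filter.1 hx3).2.2
              have hyd := (Finset.mem_filter.1 hy3).2.2
              unfold qf at hxd hyd
              rw [hx2] at hxd
              rw [hy2] at hyd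
              have h2 := dvd_sub hxd hyd
              have e3 : ((1 + Q * x.1 : ℕ) : ℤ) ^ 2 - ((1 + Q * y.1 : ℕ) : ℤ) ^ 2 =
                (((1 + Q * x.1 : ℕ) : ℤ) ^ 2 - e * ((Q * j : ℕ) : ℤ) ^ 2) -
                (((1 + Q * y.1 : ℕ) : ℤ) ^ 2 - e * ((Q * j : ℕ) : ℤ) ^ 2) := by ring
              rw [e3]
              exact h2)
          push_cast at h1
          exact h1)
      rw [Finset.card_range] at h
      push_cast at h
      exact h
    · have e1 : ∑ p ∈ Pr J X, ((J : ℝ) + 1) * (2 * ((I : ℝ) / (p : ℝ) ^ 2 + 1)) =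
          2 * (((J : ℝ) + 1) * (I * ∑ p ∈ Pr J X, 1 / ((p : ℝ) ^ 2) + (Pr J X).card)) := by
        have : ((Pr J X).card : ℝ) = ∑ p ∈ Pr J X, (1 : ℝ) := by
          rw [Finset.sum_const, nsmul_eq_mul, mul_one]
        rw [this, Finset.mul_sum, ← Finset.sum_add_distrib, Finset.mul_sum, Finset.mul_sum]
        refine Finset.sum_congr rfl fun p hp => ?_
        ring
      rw [e1]
      have h1 := mul_le_mul_of_nonneg_left (Pr_sq J X hJ1) (Nat.cast_nonneg (α := ℝ) I)
      have h2 := Pr_card J X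
      have h4 : (I : ℝ) * (1 / J) = (I : ℝ) / J := by ring
      rw [h4] at h1
      gcongr
  -- combination
  have hcard : ((R.filter fun x => ¬ GoodS Q W es x).card : ℝ) ≤
      (B0.card : ℝ) + ((Pr W S).biUnion T1).card +
        (es.biUnion fun e => (Pr W J).biUnion fun p => T2 p e).card +
        (es.biUnion fun e => (Pr J X).biUnion fun p => T3 p e).card := by
    have h1 := Finset.card_le_card hsub
    have h2 := Finset.card_union_le
      ((B0 ∪ (Pr W S).biUnion T1) ∪ es.biUnion fun e => (Pr W J).biUnion fun p => T2 p e)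
      (es.biUnion fun e => (Pr J X).biUnion fun p => T3 p e)
    have h3 := Finset.card_union_le (B0 ∪ (Pr W S).biUnion T1)
      (es.biUnion fun e => (Pr W J).biUnion fun p => T2 p e)
    have h4 := Finset.card_union_le B0 ((Pr W S).biUnion T1)
    have h5 := h1.trans (h2.trans (Nat.add_le_add_right (h3.trans (Nat.add_le_add_right h4 _)) _))
    exact_mod_cast h5
  linarith

end Pool.Agent.TH562.R2
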