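import Mathlib
import Pool.Agent.TH562.R2.BadS
import Pool.Agent.TH562.TW.BadE

/-! Bad pairs in the box have small proportion. -/

set_option autoImplicit false

namespace Pool.Agent.TH562.R2

open Finset Filter Pool.Agent.TH562.TW

theorem bad_eventually {Q W : ℕ} {es : Finset ℤ} (hQ : 0 < Q) (hW : 2 ≤ W)
    (hQW : ∀ p : ℕ, p.Prime → W < p → ¬ p ∣ Q)
    (hQW' : ∀ p : ℕ, p.Prime → p ≤ W → p ∣ Q)
    (hes : ∀ e ∈ es, e ≠ 0 ∧ |e| ≤ W) (hcard : es.card ≤ 3) :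
    ∀ᶠ r : ℕ in atTop, open Classical in
      (((Box (r ^ 2) (5 * r)).filter fun x => ¬ GoodS Q W es x).card : ℝ) ≤
      41 * (r : ℝ) ^ 3 / W := by
  have hW1 : 1 ≤ W := by omega
  have hW' : (0 : ℝ) < W := by exact_mod_cast hW1
  have hW1' : (1 : ℝ) ≤ W := by exact_mod_cast hW1
  have hQ' : (0 : ℝ) < Q := by exact_mod_cast hQ
  have hQ1 : (1 : ℝ) ≤ Q := by exact_mod_cast hQ
  set ε : ℝ := 1 / (96 * W) with hε
  have hεpos : 0 < ε := by rw [hε]; positivity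
  have e1 : ∀ᶠ r : ℕ in atTop, (Nat.primeCounting (5 * r) : ℝ) ≤ ε * r := by
    have := (tendsto_id.const_mul_atTop' (show 0 < 5 by norm_num)).eventually
      (pi_small (show 0 < ε / 5 by positivity))
    filter_upwards [this] with r hr
    simp only [id] at hr
    refine hr.trans (le_of_eq ?_)
    push_cast
    ring
  have e2 : ∀ᶠ r : ℕ in atTop, (Nat.primeCounting (2 * Q * r ^ 2) : ℝ) ≤ ε * (r : ℝ) ^ 2 := by
    have ht : Tendsto (fun r : ℕ => (2 * Q) * r ^ 2) atTop atTop :=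
      (tendsto_pow_atTop (by norm_num)).const_mul_atTop' (by positivity)
    have := ht.eventually (pi_small (show 0 < ε / (2 * Q) by positivity))
    filter_upwards [this] with r hr
    refine hr.trans (le_of_eq ?_)
    push_cast
    field_simp
  have e3 := log_small hεpos Q hQ
  have ebig : ∀ T : ℝ, ∀ᶠ r : ℕ in atTop, T ≤ (r : ℝ) := fun T =>
    (tendsto_natCast_atTop_atTop (R := ℝ)).eventually_ge_atTop T
  filter_upwards [e1, e2, e3, ebig 1, ebig (2 * W * (21 + Q)), ebig W,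
    ebig (25 * W ^ 3 + 1)] with r g1 g2 g3 g4 g5 g6 g7
  have hr0 : (0 : ℝ) < r := by linarith
  have hr1 : 1 ≤ r := by exact_mod_cast g4
  set I1 : ℕ := ⌈(r : ℝ) ^ 2 / W⌉₊ with hI1
  have hI11 : (r : ℝ) ^ 2 / W ≤ I1 := Nat.le_ceil _
  have hI12 : (I1 : ℝ) ≤ (r : ℝ) ^ 2 / W + 1 :=
    (Nat.ceil_lt_add_one (by positivity : 0 ≤ (r : ℝ) ^ 2 / W)).le
  have hr2 : (1 : ℝ) ≤ (r : ℝ) ^ 2 := one_le_pow₀ g4
  have hrr2 : (r : ℝ) ≤ (r : ℝ) ^ 2 := le_self_pow₀ g4 (by norm_num)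
  have hbad := bad_count (Q := Q) (W := W) (es := es) hW hQW hQW' hes (I := r ^ 2) (J := 5 * r)
    (I1 := I1) (S := Q * r ^ 2) (X := 2 * Q * r ^ 2) (by
      intro i hi
      have h3 : Q * (i + 1) ≤ Q * r ^ 2 := Nat.mul_le_mul_left Q hi
      rw [Nat.mul_add, Nat.mul_one] at h3
      omega) (by
      have : (W : ℝ) ≤ r := g6
      have : W ≤ r := by exact_mod_cast this
      omega) (by
      intro x hx hxI e he
      obtain ⟨hx1, hx2⟩ := mem_Box.1 hx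
      obtain ⟨he0, heW⟩ := hes e he
      have heW' : |(e : ℝ)| ≤ W := by exact_mod_cast heW
      have h3 : ((1 + Q * x.1 : ℕ) : ℝ) ≤ Q * (r : ℝ) ^ 2 := by
        have h3 : Q * (x.1 + 1) ≤ Q * r ^ 2 := Nat.mul_le_mul_left Q hx1
        rw [Nat.mul_add, Nat.mul_one] at h3
        have h3 : 1 + Q * x.1 ≤ Q * r ^ 2 := by omega
        exact_mod_cast h3
      have hs1 : (Q : ℝ) * I1 ≤ ((1 + Q * x.1 : ℕ) : ℝ) := by
        have h5 : Q * I1 ≤ 1 + Q * x.1 := by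
          have := Nat.mul_le_mul_left Q hxI
          omega
        exact_mod_cast h5
      have hv1 : ((Q * x.2 : ℕ) : ℝ) ≤ Q * (5 * r) := by
        have : Q * x.2 ≤ Q * (5 * r) := Nat.mul_le_mul_left Q hx2
        exact_mod_cast this
      set u : ℝ := ((1 + Q * x.1 : ℕ) : ℝ) with hu
      set v : ℝ := ((Q * x.2 : ℕ) : ℝ) with hv
      have hv0 : 0 ≤ v := by rw [hv]; positivity
      have hu0 : 0 ≤ u := by rw [hu]; positivity
      have hev : |(e : ℝ)| * v ^ 2 < u ^ 2 := by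
        have k1 : v ^ 2 ≤ (Q * (5 * r)) ^ 2 := pow_le_pow_left₀ hv0 hv1 2
        have k2 : |(e : ℝ)| * v ^ 2 ≤ W * (Q * (5 * r)) ^ 2 :=
          mul_le_mul heW' k1 (by positivity) hW'.le
        have k3 : ((Q : ℝ) * ((r : ℝ) ^ 2 / W)) ^ 2 ≤ u ^ 2 := by
          apply pow_le_pow_left₀ (by positivity)
          exact (mul_le_mul_of_nonneg_left hI11 hQ'.le).trans hs1
        have k4 : (W : ℝ) * (Q * (5 * r)) ^ 2 < ((Q : ℝ) * ((r : ℝ) ^ 2 / W)) ^ 2 := by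
          have e5 : ((Q : ℝ) * ((r : ℝ) ^ 2 / W)) ^ 2 = (Q : ℝ) ^ 2 * (r : ℝ) ^ 2 * (r : ℝ) ^ 2 / W ^ 2 := by
            ring
          rw [e5, lt_div_iff₀ (by positivity)]
          have e6 : (W : ℝ) * (Q * (5 * r)) ^ 2 * W ^ 2 = (Q : ℝ) ^ 2 * (r : ℝ) ^ 2 * (25 * W ^ 3) := by
            ring
          rw [e6]
          apply mul_lt_mul_of_pos_left _ (by positivity)
          linarith
        linarith
      have hqf : (qf e (1 + Q * x.1) (Q * x.2) : ℝ) = u ^ 2 - e * v ^ 2 := by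
        unfold qf; rw [hu, hv]; push_cast; ring
      have hle1 : (e : ℝ) * v ^ 2 ≤ |(e : ℝ)| * v ^ 2 :=
        mul_le_mul_of_nonneg_right (le_abs_self _) (by positivity)
      have hle2 : -(|(e : ℝ)| * v ^ 2) ≤ (e : ℝ) * v ^ 2 := by
        have := mul_le_mul_of_nonneg_right (neg_abs_le (e : ℝ)) (by positivity : 0 ≤ v ^ 2)
        linarith
      constructor
      · have : (0 : ℝ) < (qf e (1 + Q * x.1) (Q * x.2) : ℝ) := by rw [hqf]; linarith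
        exact_mod_cast this
      · have : (qf e (1 + Q * x.1) (Q * x.2) : ℝ) < (((2 * Q * r ^ 2 + 1) ^ 2 : ℕ) : ℝ) := by
          rw [hqf]
          push_cast
          have k1 : u ^ 2 ≤ (Q * (r : ℝ) ^ 2) ^ 2 := pow_le_pow_left₀ hu0 h3 2
          have k2 : 0 ≤ (Q : ℝ) * (r : ℝ) ^ 2 := by positivity
          have k3 : (2 * (Q : ℝ) * (r : ℝ) ^ 2 + 1) ^ 2 = 4 * (Q * (r : ℝ) ^ 2) ^ 2 +
            4 * (Q * (r : ℝ) ^ 2) + 1 := by ring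
          rw [k3]
          have k4 : 0 ≤ ((Q : ℝ) * (r : ℝ) ^ 2) ^ 2 := by positivity
          linarith
        exact_mod_cast this)
  refine hbad.trans ?_
  have hπ0 : (0 : ℝ) ≤ Nat.primeCounting (5 * r) := Nat.cast_nonneg _
  have hπ1 : (0 : ℝ) ≤ Nat.primeCounting (2 * Q * r ^ 2) := Nat.cast_nonneg _
  have hc3 : (es.card : ℝ) ≤ 3 := by exact_mod_cast hcard
  have t0 : (I1 : ℝ) * ((5 * r : ℕ) + 1) ≤ 5 * (r : ℝ) ^ 3 / W + 7 * (r : ℝ) ^ 2 := by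
    push_cast
    have h3 : (I1 : ℝ) * (5 * r + 1) ≤ ((r : ℝ) ^ 2 / W + 1) * (5 * r + 1) :=
      mul_le_mul_of_nonneg_right hI12 (by positivity)
    have h4 : (r : ℝ) ^ 2 / W ≤ (r : ℝ) ^ 2 := div_le_self (by positivity) hW1'
    have h5 : ((r : ℝ) ^ 2 / W + 1) * (5 * r + 1) =
      5 * (r : ℝ) ^ 3 / W + (r : ℝ) ^ 2 / W + 5 * r + 1 := by ring
    linarith only [h3, h4, h5, hrr2, hr2]
  have t1 : ((r ^ 2 : ℕ) : ℝ) * ((5 * r : ℕ) : ℝ) / W = 5 * (r : ℝ) ^ 3 / W := by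
    push_cast; ring
  have t1' : (((r ^ 2 : ℕ) : ℝ) + ((5 * r : ℕ) : ℝ)) * (1 + Real.log ((Q * r ^ 2 : ℕ) : ℝ)) +
      ((Q * r ^ 2 : ℕ) : ℝ) ≤ 6 * ε * (r : ℝ) ^ 3 + (6 + Q) * (r : ℝ) ^ 2 := by
    have h3 : ((r ^ 2 : ℕ) : ℝ) + ((5 * r : ℕ) : ℝ) ≤ 6 * (r : ℝ) ^ 2 := by
      push_cast
      linarith only [hrr2]
    have h4 : 0 ≤ 1 + Real.log ((Q * r ^ 2 : ℕ) : ℝ) := by
      have : 0 ≤ Real.log ((Q * r ^ 2 : ℕ) : ℝ) := by
        apply Real.log_nonneg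
        have : 1 ≤ Q * r ^ 2 := Nat.mul_pos hQ (pow_pos (by omega) 2)
        exact_mod_cast this
      linarith only [this]
    have h5 : (((r ^ 2 : ℕ) : ℝ) + ((5 * r : ℕ) : ℝ)) * (1 + Real.log ((Q * r ^ 2 : ℕ) : ℝ)) ≤
        (6 * (r : ℝ) ^ 2) * (1 + ε * r) :=
      mul_le_mul h3 (by linarith only [g3]) h4 (by positivity)
    have h6 : (6 * (r : ℝ) ^ 2) * (1 + ε * r) = 6 * (r : ℝ) ^ 2 + 6 * ε * (r : ℝ) ^ 3 := by ring
    have h7 : ((Q * r ^ 2 : ℕ) : ℝ) = Q * (r : ℝ) ^ 2 := by push_cast; ring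
    linarith only [h5, h6, h7]
  have t2 : (es.card : ℝ) * (2 * (((r ^ 2 : ℕ) : ℝ) * ((5 * r : ℕ) : ℝ) / W +
      ((r ^ 2 : ℕ) : ℝ) * Nat.primeCounting (5 * r))) ≤
      30 * (r : ℝ) ^ 3 / W + 6 * ε * (r : ℝ) ^ 3 := by
    have h3 : ((r ^ 2 : ℕ) : ℝ) * Nat.primeCounting (5 * r) ≤ (r : ℝ) ^ 2 * (ε * r) := by
      push_cast
      exact mul_le_mul_of_nonneg_left g1 (by positivity)
    rw [t1]
    have h4 : 2 * (5 * (r : ℝ) ^ 3 / W + ((r ^ 2 : ℕ) : ℝ) * Nat.primeCounting (5 * r)) ≤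
      2 * (5 * (r : ℝ) ^ 3 / W + (r : ℝ) ^ 2 * (ε * r)) := by linarith only [h3]
    have h5 := mul_le_mul hc3 h4 (by positivity) (by norm_num)
    refine h5.trans (le_of_eq ?_)
    ring
  have t3 : (es.card : ℝ) * (2 * ((((5 * r : ℕ) : ℝ) + 1) * (((r ^ 2 : ℕ) : ℝ) /
      ((5 * r : ℕ) : ℝ) + Nat.primeCounting (2 * Q * r ^ 2)))) ≤
      8 * (r : ℝ) ^ 2 + 36 * ε * (r : ℝ) ^ 3 := by
    have h3 : (((5 * r : ℕ) : ℝ) + 1) ≤ 6 * r := by push_cast; linarith only [g4]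
    have h4 : ((r ^ 2 : ℕ) : ℝ) / ((5 * r : ℕ) : ℝ) + Nat.primeCounting (2 * Q * r ^ 2) ≤
        (r : ℝ) / 5 + ε * (r : ℝ) ^ 2 := by
      have : ((r ^ 2 : ℕ) : ℝ) / ((5 * r : ℕ) : ℝ) = (r : ℝ) / 5 := by
        push_cast; field_simp
      rw [this]
      linarith only [g2]
    have h5 : (((5 * r : ℕ) : ℝ) + 1) * (((r ^ 2 : ℕ) : ℝ) /
      ((5 * r : ℕ) : ℝ) + Nat.primeCounting (2 * Q * r ^ 2)) ≤
        (6 * r) * ((r : ℝ) / 5 + ε * (r : ℝ) ^ 2) :=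
      mul_le_mul h3 h4 (by positivity) (by positivity)
    have h6 : 2 * ((((5 * r : ℕ) : ℝ) + 1) * (((r ^ 2 : ℕ) : ℝ) /
      ((5 * r : ℕ) : ℝ) + Nat.primeCounting (2 * Q * r ^ 2))) ≤
        2 * ((6 * r) * ((r : ℝ) / 5 + ε * (r : ℝ) ^ 2)) := by linarith only [h5]
    have h7 := mul_le_mul hc3 h6 (by positivity) (by norm_num)
    have h8 : (3 : ℝ) * (2 * ((6 * r) * ((r : ℝ) / 5 + ε * (r : ℝ) ^ 2))) =
      36 / 5 * (r : ℝ) ^ 2 + 36 * ε * (r : ℝ) ^ 3 := by ring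
    have h9 : (0 : ℝ) ≤ (r : ℝ) ^ 2 := by positivity
    linarith only [h7, h8, h9]
  have hfin1 : 48 * ε * (r : ℝ) ^ 3 = (r : ℝ) ^ 3 / W / 2 := by
    rw [hε]; field_simp; ring
  have hfin2 : (21 + Q) * (r : ℝ) ^ 2 ≤ (r : ℝ) ^ 3 / W / 2 := by
    rw [div_div, le_div_iff₀ (by positivity)]
    have h3 := mul_le_mul_of_nonneg_right g5 (sq_nonneg (r : ℝ))
    linarith only [h3]
  have htot : 41 * (r : ℝ) ^ 3 / W = 41 * ((r : ℝ) ^ 3 / W) := by ring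
  have h5W : 5 * (r : ℝ) ^ 3 / W = 5 * ((r : ℝ) ^ 3 / W) := by ring
  have h30W : 30 * (r : ℝ) ^ 3 / W = 30 * ((r : ℝ) ^ 3 / W) := by ring
  rw [htot]
  rw [h5W] at t0 t1
  rw [h30W] at t2
  linarith only [t0, t1, t1', t2, t3, hfin1, hfin2]

end Pool.Agent.TH562.R2
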