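import Mathlib
import Pool.Agent.TH562.R2.BadE
import Pool.Agent.TH562.R2.Arith
import Pool.Agent.TH562.TW.Final

/-! The exceptional set for twists of rank at least two. -/

set_option autoImplicit false

namespace Pool.Agent.TH562.R2

open Finset Filter Pool.Agent.TH562.TW Pool.Agent.H918R3

theorem cubic_ne (n : ℕ) : ∀ x y : ℤ, x.natAbs + y.natAbs ≤ n → x ^ 3 + 3 * x ^ 2 * y - y ^ 3 = 0 →
    x = 0 ∧ y = 0 := by
  induction n using Nat.strong_induction_on with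
  | _ n ih =>
    intro x y hn h
    have hx2 : x % 2 = 0 ∧ y % 2 = 0 := by
      have h1 : (x ^ 3 + 3 * x ^ 2 * y - y ^ 3) % 2 = 0 := by rw [h]; rfl
      rcases Int.emod_two_eq_zero_or_one x with hx | hx <;>
        rcases Int.emod_two_eq_zero_or_one y with hy | hy
      · exact ⟨hx, hy⟩
      · exfalso
        simp [Int.sub_emod, Int.add_emod, Int.mul_emod, pow_succ, hx, hy] at h1
      · exfalso
        simp [Int.sub_emod, Int.add_emod, Int.mul_emod, pow_succ, hx, hy] at h1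
      · exfalso
        simp [Int.sub_emod, Int.add_emod, Int.mul_emod, pow_succ, hx, hy] at h1
    obtain ⟨x', rfl⟩ : ∃ x', x = 2 * x' := ⟨x / 2, by omega⟩
    obtain ⟨y', rfl⟩ : ∃ y', y = 2 * y' := ⟨y / 2, by omega⟩
    have h2 : x' ^ 3 + 3 * x' ^ 2 * y' - y' ^ 3 = 0 := by
      have : 8 * (x' ^ 3 + 3 * x' ^ 2 * y' - y' ^ 3) = 0 := by rw [← h]; ring
      omega
    by_cases hz : x' = 0 ∧ y' = 0
    · obtain ⟨rfl, rfl⟩ := hz
      simp
    · have h3 := ih (x'.natAbs + y'.natAbs) (by omega) x' y' le_rfl h2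
      exact absurd h3 hz

/-- the width of row `i` -/
noncomputable def Jf (Q i : ℕ) : ℕ := ⌈√(24 * ((1 + Q * i : ℕ) : ℝ) / Q)⌉₊

theorem ex_bound (a1 a2 a3 a4 a5 a6 : ℕ) : ∃ W : ℕ, a1 ≤ W ∧ a2 ≤ W ∧ a3 ≤ W ∧ a4 ≤ W ∧
    a5 ≤ W ∧ a6 ≤ W ∧ 2 ≤ W :=
  ⟨a1 + a2 + a3 + a4 + a5 + a6 + 2, by omega, by omega, by omega, by omega, by omega, by omega,
    by omega⟩

open Classical in
theorem sieve_main {h : ℕ} (hhpos : 1 ≤ h) {a b c : ℤ} (ha0 : a ≠ 0) (hb0 : b ≠ 0) (hc0 : c ≠ 0)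
    (hσ : a + b + c ≠ 0) (Z : ℕ) {M : ℕ} (hM : 0 < M) {δ : ℝ} (hδ : 0 < δ) :
    ∃ W Q : ℕ, Z ≤ W ∧ M ∣ Q ∧ (∀ p : ℕ, p.Prime → p ≤ W → p ∣ Q) ∧ ∀ PP : ℕ → Prop,
      (∀ i j : ℕ, 0 < Q * j → GoodS Q W {a, b, c} (i, j) → 1 < qf a (1 + Q * i) (Q * j) →
        1 < qf b (1 + Q * i) (Q * j) → 1 < qf c (1 + Q * i) (Q * j) →
        ∃ d : ℕ, ((h * d : ℕ) : ℤ) = FZ h a b c (1 + Q * i) (Q * j) ∧ PP d) →
    ∃ C : ℝ, 0 < C ∧ ∀ᶠ N : ℕ in atTop,
      (((Finset.Icc 1 N).filter fun x : ℕ => ¬ ∃ d : ℕ, x ≤ h * d ∧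
        ((h * d : ℕ) : ℝ) ≤ x + C * (x : ℝ) ^ (3 / 4 : ℝ) ∧ PP d).card : ℝ) ≤ δ * N := by
  -- the width parameter
  set τ : ℝ := |(a : ℝ) * b + b * c + c * a| + |(a : ℝ) * b * c| with hτ
  have hτ0 : 0 ≤ τ := by positivity
  have haa := abs_nonneg (a : ℝ)
  have hbb := abs_nonneg (b : ℝ)
  have hcc := abs_nonneg (c : ℝ)
  obtain ⟨η, hηpos, hη1, hηden⟩ : ∃ η : ℝ, 0 < η ∧ η ≤ 1 ∧
      (1 + |(a : ℝ)| + |(b : ℝ)| + |(c : ℝ)| + τ) * η = 1 / 2 := by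
    have hden : 0 < 1 + |(a : ℝ)| + |(b : ℝ)| + |(c : ℝ)| + τ := by positivity
    refine ⟨1 / 2 / (1 + |(a : ℝ)| + |(b : ℝ)| + |(c : ℝ)| + τ), by positivity, ?_, ?_⟩
    · rw [div_le_one hden]; linarith only [haa, hbb, hcc, hτ0]
    · field_simp
  have hητ : τ * η ≤ 1 / 2 := by
    have := mul_nonneg (by positivity : 0 ≤ 1 + |(a : ℝ)| + |(b : ℝ)| + |(c : ℝ)|) hηpos.le
    linarith only [this, hηden]
  have hηe : ∀ e ∈ ({a, b, c} : Finset ℤ), |(e : ℝ)| * η ≤ 1 / 2 := by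
    intro e he
    have k1 : 0 ≤ |(a : ℝ)| * η := by positivity
    have k2 : 0 ≤ |(b : ℝ)| * η := by positivity
    have k3 : 0 ≤ |(c : ℝ)| * η := by positivity
    have k4 : 0 ≤ τ * η := by positivity
    have k5 : (1 + |(a : ℝ)| + |(b : ℝ)| + |(c : ℝ)| + τ) * η = η + |(a : ℝ)| * η +
      |(b : ℝ)| * η + |(c : ℝ)| * η + τ * η := by ring
    simp only [Finset.mem_insert, Finset.mem_singleton] at he
    rcases he with rfl | rfl | rfl
    · linarith only [k1, k2, k3, k4, k5, hηden, hηpos]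
    · linarith only [k1, k2, k3, k4, k5, hηden, hηpos]
    · linarith only [k1, k2, k3, k4, k5, hηden, hηpos]
  -- the modulus
  set S : ℝ := S1 (a : ℝ) b c with hS
  have hS0 : 0 ≤ S := by rw [hS]; unfold S1; positivity
  obtain ⟨W0, hW0⟩ := exists_nat_ge (429916160 * S / δ)
  obtain ⟨W, hZW, hMW, hW0W, haW, hbW, hcW, hW2⟩ := ex_bound Z M W0 a.natAbs b.natAbs c.natAbs
  have hW' : (0 : ℝ) < W := by
    have : 0 < W := by omega
    exact_mod_cast this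
  have hWδ : 429916160 * S / δ ≤ W := hW0.trans (by exact_mod_cast hW0W)
  have hes : ∀ e ∈ ({a, b, c} : Finset ℤ), e ≠ 0 ∧ |e| ≤ W := by
    intro e he
    simp only [Finset.mem_insert, Finset.mem_singleton] at he
    rcases he with rfl | rfl | rfl
    · exact ⟨ha0, by rw [Int.abs_eq_natAbs]; exact_mod_cast haW⟩
    · exact ⟨hb0, by rw [Int.abs_eq_natAbs]; exact_mod_cast hbW⟩
    · exact ⟨hc0, by rw [Int.abs_eq_natAbs]; exact_mod_cast hcW⟩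
  clear haW hbW hcW hW0W hW0
  have hcard3 : ({a, b, c} : Finset ℤ).card ≤ 3 := Finset.card_le_three
  obtain ⟨Q, hQdef⟩ : ∃ Q : ℕ, Q = W.factorial := ⟨_, rfl⟩
  have hQ : 0 < Q := by rw [hQdef]; exact Nat.factorial_pos W
  have hQ' : (0 : ℝ) < Q := by exact_mod_cast hQ
  have hQ1 : (1 : ℝ) ≤ Q := by exact_mod_cast hQ
  have hMQ : M ∣ Q := by rw [hQdef]; exact Nat.dvd_factorial hM hMW
  have hQW : ∀ p : ℕ, p.Prime → W < p → ¬ p ∣ Q := by
    intro p hp hpW hd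
    rw [hQdef] at hd
    have := (hp.dvd_factorial).1 hd
    omega
  have hQW' : ∀ p : ℕ, p.Prime → p ≤ W → p ∣ Q := fun p hp hpW => by
    rw [hQdef]; exact (hp.dvd_factorial).2 hpW
  clear hQdef
  refine ⟨W, Q, hZW, hMQ, hQW', fun PP hPP => ?_⟩
  have hh1 : (1 : ℝ) ≤ h := by exact_mod_cast hhpos
  -- the width of the rows
  have hJf1 : ∀ i, √(24 * ((1 + Q * i : ℕ) : ℝ) / Q) ≤ Jf Q i := fun i => Nat.le_ceil _
  have hJf2 : ∀ i, (Jf Q i : ℝ) ≤ √(24 * ((1 + Q * i : ℕ) : ℝ) / Q) + 1 := fun i =>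
    (Nat.ceil_lt_add_one (by positivity)).le
  set T : ℝ := 5 * Q + (6 * Q / η) ^ 2 with hT
  have p1 : 0 ≤ (6 * Q / η) ^ 2 := by positivity
  obtain ⟨i0, hi0T⟩ := exists_nat_ge T
  have hsT : ∀ i, i0 ≤ i → T ≤ ((1 + Q * i : ℕ) : ℝ) := by
    intro i hi
    refine hi0T.trans ?_
    have : i0 ≤ 1 + Q * i := by
      have : 1 * i ≤ Q * i := Nat.mul_le_mul_right i hQ
      omega
    exact_mod_cast this
  have hsq : ∀ s : ℝ, T ≤ s → 1 ≤ √s ∧ √(24 * s / Q) + 1 ≤ 6 * √s ∧ Q * (6 * √s) ≤ η * s := by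
    intro s hs
    have hs1 : 1 ≤ s := by linarith only [hs, hT, p1, hQ1]
    have h1 : 1 ≤ √s := by rw [Real.one_le_sqrt]; exact hs1
    have h3 : √(24 * s / Q) ≤ 5 * √s := by
      have : √(24 * s / Q) ≤ √(25 * s) := by
        apply Real.sqrt_le_sqrt
        rw [div_le_iff₀ hQ']
        nlinarith
      refine this.trans (le_of_eq ?_)
      rw [Real.sqrt_mul (by norm_num)]
      have : √(25 : ℝ) = 5 := by
        rw [show (25 : ℝ) = 5 ^ 2 by norm_num, Real.sqrt_sq (by norm_num)]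
      rw [this]
    have h2 : 6 * Q / η ≤ √s := by
      apply Real.le_sqrt_of_sq_le
      linarith only [hs, hT, p1, hQ']
    rw [div_le_iff₀ hηpos] at h2
    have h4 : √s * √s = s := Real.mul_self_sqrt (by linarith only [hs1])
    refine ⟨h1, by linarith only [h1, h3], ?_⟩
    calc (Q : ℝ) * (6 * √s) = (6 * Q) * √s := by ring
      _ ≤ (√s * η) * √s := by gcongr
      _ = η * (√s * √s) := by ring
      _ = η * s := by rw [h4]
  have hi0 : ∀ i, i0 ≤ i → 5 * (Q : ℝ) ≤ ((1 + Q * i : ℕ) : ℝ) ∧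
      (Q : ℝ) * Jf Q i ≤ η * ((1 + Q * i : ℕ) : ℝ) ∧
      24 * ((1 + Q * i : ℕ) : ℝ) ≤ Q * (Jf Q i : ℝ) ^ 2 := by
    intro i hi
    have hs := hsT i hi
    obtain ⟨k1, k2, k3⟩ := hsq _ hs
    have h2 := hJf2 i
    refine ⟨by linarith only [hs, hT, p1], ?_, ?_⟩
    · have : (Q : ℝ) * Jf Q i ≤ Q * (6 * √((1 + Q * i : ℕ) : ℝ)) :=
        mul_le_mul_of_nonneg_left (h2.trans k2) hQ'.le
      linarith only [this, k3]
    · have h3 : 24 * ((1 + Q * i : ℕ) : ℝ) / Q ≤ (Jf Q i : ℝ) ^ 2 := by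
        have h4 := hJf1 i
        rw [Real.sqrt_le_left (Nat.cast_nonneg _)] at h4
        exact h4
      rw [div_le_iff₀ hQ'] at h3
      linarith only [h3]
  have hcov := fun x : ℤ => cover (h := h) (a := a) (b := b) (c := c) (Q := Q) (x := x) hhpos
    hηpos.le hη1 hητ hσ hQ (Jf Q) i0 hi0
  -- lower bound for x
  have hxs : ∀ s : ℝ, T ≤ s → (h : ℝ) * s ^ 6 / 64 ≤ h * (s - Q) ^ 6 := by
    intro s hs
    have h1 : 2 * (Q : ℝ) ≤ s := by linarith only [hs, hT, p1, hQ']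
    have hs1 : 1 ≤ s := by linarith only [hs, hT, p1, hQ1]
    have h4 : (s / 2) ^ 6 ≤ (s - Q) ^ 6 :=
      pow_le_pow_left₀ (by linarith only [hs1]) (by linarith only [h1]) 6
    have h5 := mul_le_mul_of_nonneg_left h4 (by linarith only [hh1] : (0 : ℝ) ≤ h)
    have h6 : (h : ℝ) * (s / 2) ^ 6 = h * s ^ 6 / 64 := by ring
    linarith only [h5, h6]
  -- step bound
  have hstep0 : ∀ i k : ℕ, i0 ≤ i → k + 1 ≤ Jf Q i →
      |(FZ h a b c (1 + Q * i) (Q * (k + 1)) : ℝ) - FZ h a b c (1 + Q * i) (Q * k)| ≤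
        h * S * ((1 + Q * i : ℕ) : ℝ) ^ 4 * (Q ^ 2 * (2 * Jf Q i)) := by
    intro i k hi hk
    obtain ⟨g1, g2, _⟩ := hi0 i hi
    rw [FZ_cast, FZ_cast]
    set s : ℝ := ((1 + Q * i : ℕ) : ℝ) with hsdef
    have hs0 : 0 ≤ s := by rw [hsdef]; positivity
    have hk' : (k : ℝ) + 1 ≤ Jf Q i := by exact_mod_cast hk
    have e1 : ((Q * (k + 1) : ℕ) : ℝ) = ((Q * k : ℕ) : ℝ) + Q := by push_cast; ring
    have e2 : ((Q * k : ℕ) : ℝ) = Q * k := by push_cast; ring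
    have hle : ((Q * k : ℕ) : ℝ) + Q ≤ s := by
      rw [e2]
      have h1 : (Q : ℝ) * (k + 1) ≤ Q * Jf Q i := mul_le_mul_of_nonneg_left hk' hQ'.le
      have h2 : η * s ≤ 1 * s := mul_le_mul_of_nonneg_right hη1 hs0
      linarith only [h1, h2, g2]
    have h3 := F_diff (h := h) (a := a) (b := b) (c := c) (by linarith only [hh1])
      (u := s) (v := ((Q * k : ℕ) : ℝ)) (q := Q) (Nat.cast_nonneg _) hQ'.le hle
    rw [e1]
    refine h3.trans ?_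
    have h4 : (Q : ℝ) * (2 * ((Q * k : ℕ) : ℝ) + Q) ≤ Q ^ 2 * (2 * Jf Q i) := by
      rw [e2]
      have h5 : 2 * (k : ℝ) + 1 ≤ 2 * Jf Q i := by linarith only [hk']
      have h6 := mul_le_mul_of_nonneg_left h5 (by positivity : (0 : ℝ) ≤ (Q : ℝ) ^ 2)
      linarith only [h6]
    have h7 : 0 ≤ (h : ℝ) * S * s ^ 4 := by positivity
    exact mul_le_mul_of_nonneg_left h4 h7
  have hstep : ∀ i j j' : ℕ, i0 ≤ i → (j' = j + 1 ∨ j = j' + 1) → j ≤ Jf Q i → j' ≤ Jf Q i →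
      (FZ h a b c (1 + Q * i) (Q * j) : ℝ) - FZ h a b c (1 + Q * i) (Q * j') ≤
        h * S * ((1 + Q * i : ℕ) : ℝ) ^ 4 * (Q ^ 2 * (2 * Jf Q i)) := by
    intro i j j' hi hjj hj hj'
    rcases hjj with rfl | rfl
    · have := (abs_le.1 (hstep0 i j hi hj')).1
      linarith only [this]
    · exact (abs_le.1 (hstep0 i j' hi hj)).2
  -- positivity of the forms
  have hqf : ∀ e ∈ ({a, b, c} : Finset ℤ), ∀ i j : ℕ, i0 ≤ i → j ≤ Jf Q i →
      1 < qf e (1 + Q * i) (Q * j) := by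
    intro e he i j hi hj
    obtain ⟨g1, g2, _⟩ := hi0 i hi
    have hj' : (j : ℝ) ≤ Jf Q i := by exact_mod_cast hj
    set s : ℝ := ((1 + Q * i : ℕ) : ℝ) with hsdef
    have hs5 : 5 ≤ s := by linarith only [g1, hQ1]
    have hv : ((Q * j : ℕ) : ℝ) ≤ η * s := by
      have : (Q : ℝ) * j ≤ Q * Jf Q i := mul_le_mul_of_nonneg_left hj' hQ'.le
      push_cast
      linarith only [this, g2]
    have hv2 : ((Q * j : ℕ) : ℝ) ^ 2 ≤ η * s ^ 2 := by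
      have h1 : ((Q * j : ℕ) : ℝ) ^ 2 ≤ (η * s) ^ 2 := pow_le_pow_left₀ (Nat.cast_nonneg _) hv 2
      have h2 : (η * s) ^ 2 = η * (η * s ^ 2) := by ring
      have h3 : η * (η * s ^ 2) ≤ 1 * (η * s ^ 2) := mul_le_mul_of_nonneg_right hη1 (by positivity)
      linarith only [h1, h2, h3]
    have h4 : (e : ℝ) * ((Q * j : ℕ) : ℝ) ^ 2 ≤ 1 / 2 * s ^ 2 := by
      calc (e : ℝ) * ((Q * j : ℕ) : ℝ) ^ 2 ≤ |(e : ℝ)| * ((Q * j : ℕ) : ℝ) ^ 2 :=
            mul_le_mul_of_nonneg_right (le_abs_self _) (by positivity)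
        _ ≤ |(e : ℝ)| * (η * s ^ 2) := mul_le_mul_of_nonneg_left hv2 (abs_nonneg _)
        _ = (|(e : ℝ)| * η) * s ^ 2 := by ring
        _ ≤ 1 / 2 * s ^ 2 := mul_le_mul_of_nonneg_right (hηe e he) (by positivity)
    have h5 : (1 : ℝ) < (qf e (1 + Q * i) (Q * j) : ℝ) := by
      have e5 : (qf e (1 + Q * i) (Q * j) : ℝ) = s ^ 2 - e * ((Q * j : ℕ) : ℝ) ^ 2 := by
        unfold qf; rw [hsdef]; push_cast; ring
      rw [e5]
      nlinarith only [h4, hs5]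
    exact_mod_cast h5
  refine ⟨6144 * h * (S + 1) * Q ^ 2, by positivity, ?_⟩
  have hbadE := bad_eventually (es := {a, b, c}) hQ hW2 hQW hQW' hes hcard3
  obtain ⟨R1, hR1⟩ := eventually_atTop.1 hbadE
  set R0 : ℕ := R1 + 2 with hR0
  set x0 : ℕ := (FZ h a b c (1 + Q * i0) (Q * 0)).toNat with hx0
  obtain ⟨N1, hN1⟩ := exists_nat_ge ((h : ℝ) / 64 * (Q * (R0 : ℝ) ^ 2) ^ 6)
  obtain ⟨N2, hN2⟩ := exists_nat_ge (2 * x0 / δ)
  filter_upwards [eventually_ge_atTop N1, eventually_ge_atTop N2] with N hNN1 hNN2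
  have hN1' : (h : ℝ) / 64 * (Q * (R0 : ℝ) ^ 2) ^ 6 ≤ N := hN1.trans (by exact_mod_cast hNN1)
  have hN2' : 2 * x0 / δ ≤ N := hN2.trans (by exact_mod_cast hNN2)
  -- the choice of r
  have hex : ∃ r : ℕ, (N : ℝ) < (h : ℝ) / 64 * (Q * (r : ℝ) ^ 2) ^ 6 := by
    obtain ⟨t, ht⟩ := exists_nat_gt ((N : ℝ) * 64 + 1)
    refine ⟨t, ?_⟩
    have h0 : (0 : ℝ) ≤ N := Nat.cast_nonneg _
    have h1 : (1 : ℝ) ≤ t := by linarith only [h0, ht]
    have h2 : (t : ℝ) ≤ (Q * (t : ℝ) ^ 2) ^ 6 := by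
      have h4 : (t : ℝ) ≤ (t : ℝ) ^ 2 := le_self_pow₀ h1 (by norm_num)
      have h5 : (t : ℝ) ≤ Q * (t : ℝ) ^ 2 := by
        have : 1 * (t : ℝ) ^ 2 ≤ Q * (t : ℝ) ^ 2 := mul_le_mul_of_nonneg_right hQ1 (by positivity)
        linarith only [this, h4]
      exact h5.trans (le_self_pow₀ (by linarith only [h1, h5]) (by norm_num))
    have h3 : 1 / 64 * (Q * (t : ℝ) ^ 2) ^ 6 ≤ (h : ℝ) / 64 * (Q * (t : ℝ) ^ 2) ^ 6 := by
      gcongr
    linarith only [h2, h3, ht]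
  obtain ⟨r, hr1, hr2⟩ : ∃ r : ℕ, (N : ℝ) < (h : ℝ) / 64 * (Q * (r : ℝ) ^ 2) ^ 6 ∧
      ∀ j < r, ¬ (N : ℝ) < (h : ℝ) / 64 * (Q * (j : ℝ) ^ 2) ^ 6 :=
    ⟨Nat.find hex, Nat.find_spec hex, fun j hj => Nat.find_min hex hj⟩
  have hrR0 : R0 < r := by
    by_contra hcon
    push Not at hcon
    have h1 : (r : ℝ) ≤ R0 := by exact_mod_cast hcon
    have h2 : (h : ℝ) / 64 * (Q * (r : ℝ) ^ 2) ^ 6 ≤ (h : ℝ) / 64 * (Q * (R0 : ℝ) ^ 2) ^ 6 := by
      gcongr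
    linarith only [h2, hr1, hN1']
  have hr2' : (2 : ℝ) ≤ r := by
    have : 2 ≤ r := by omega
    exact_mod_cast this
  have hr0 : (0 : ℝ) < r := by linarith only [hr2']
  have hrN : (h : ℝ) * (Q * (r : ℝ) ^ 2) ^ 6 ≤ 262144 * N := by
    have h1 := hr2 (r - 1) (by omega)
    push Not at h1
    have h2 : ((r - 1 : ℕ) : ℝ) = r - 1 := by
      rw [Nat.cast_sub (by omega)]; norm_num
    rw [h2] at h1
    have h3 : (r : ℝ) ≤ 2 * (r - 1) := by linarith only [hr2']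
    have h4 : (h : ℝ) * (Q * (r : ℝ) ^ 2) ^ 6 ≤ h * (Q * (2 * ((r : ℝ) - 1)) ^ 2) ^ 6 := by gcongr
    have h5 : (h : ℝ) * (Q * (2 * ((r : ℝ) - 1)) ^ 2) ^ 6 =
      262144 * (h / 64 * (Q * ((r : ℝ) - 1) ^ 2) ^ 6) := by ring
    rw [h5] at h4
    linarith only [h1, h4]
  set R := Box (r ^ 2) (5 * r) with hR
  have hbad : ((R.filter fun x => ¬ GoodS Q W {a, b, c} x).card : ℝ) ≤ 41 * (r : ℝ) ^ 3 / W :=
    hR1 r (by omega)
  set Bad := R.filter fun x => ¬ GoodS Q W {a, b, c} x with hBad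
  set Bad1 := Bad.filter fun x => i0 ≤ x.1 ∧ x.2 + 1 ≤ Jf Q x.1 with hBad1
  set Bad2 := Bad.filter fun x => i0 ≤ x.1 ∧ x.2 ≤ Jf Q x.1 ∧ 1 ≤ x.2 with hBad2
  have hB1card : (Bad1.card : ℝ) ≤ 41 * (r : ℝ) ^ 3 / W := by
    refine le_trans ?_ hbad
    exact_mod_cast Finset.card_filter_le _ _
  have hB2card : (Bad2.card : ℝ) ≤ 41 * (r : ℝ) ^ 3 / W := by
    refine le_trans ?_ hbad
    exact_mod_cast Finset.card_filter_le _ _
  set J1 : ℕ × ℕ → Finset ℕ := fun x =>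
    Finset.Ico (FZ h a b c (1 + Q * x.1) (Q * (x.2 + 1))).toNat
      (FZ h a b c (1 + Q * x.1) (Q * x.2)).toNat with hJ1
  set J2 : ℕ × ℕ → Finset ℕ := fun x =>
    Finset.Ico (FZ h a b c (1 + Q * x.1) (Q * (x.2 - 1))).toNat
      (FZ h a b c (1 + Q * x.1) (Q * x.2)).toNat with hJ2
  -- rows below r^2
  have hsS : ∀ i < r ^ 2, ((1 + Q * i : ℕ) : ℝ) ≤ Q * (r : ℝ) ^ 2 := by
    intro i hi
    have h3 : Q * (i + 1) ≤ Q * r ^ 2 := Nat.mul_le_mul_left Q hi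
    rw [Nat.mul_add, Nat.mul_one] at h3
    have h3 : 1 + Q * i ≤ Q * r ^ 2 := by omega
    exact_mod_cast h3
  have hJfr : ∀ i < r ^ 2, Jf Q i ≤ 5 * r := by
    intro i hi
    unfold Jf
    rw [Nat.ceil_le, Real.sqrt_le_left (by positivity), div_le_iff₀ hQ']
    have h1 := hsS i hi
    have h2 : 0 ≤ (Q : ℝ) * (r : ℝ) ^ 2 := by positivity
    push_cast at h1 ⊢
    linarith only [h1, h2]
  -- the cover
  have hsub : ((Finset.Icc 1 N).filter fun x : ℕ => ¬ ∃ d : ℕ, x ≤ h * d ∧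
        ((h * d : ℕ) : ℝ) ≤ x + (6144 * h * (S + 1) * Q ^ 2) * (x : ℝ) ^ (3 / 4 : ℝ) ∧ PP d) ⊆
      range x0 ∪ (Bad1.biUnion J1 ∪ Bad2.biUnion J2) := by
    intro x hx
    obtain ⟨hx1, hxbad⟩ := Finset.mem_filter.1 hx
    obtain ⟨hx1, hxN⟩ := Finset.mem_Icc.1 hx1
    by_cases hxx0 : x < x0
    · exact Finset.mem_union_left _ (Finset.mem_range.2 hxx0)
    refine Finset.mem_union_right _ ?_
    obtain ⟨i, j, j', hi, hjj, hjJ, hjJ', hPl, hPu, hxlow⟩ := hcov (x : ℤ) (by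
      rw [hx0] at hxx0
      omega)
    have hTs := hsT i hi
    have hxlow' : (h : ℝ) * (((1 + Q * i : ℕ) : ℝ)) ^ 6 / 64 ≤ x := (hxs _ hTs).trans (by
      rw [Int.cast_natCast] at hxlow
      exact hxlow)
    have hir : i < r ^ 2 := by
      by_contra hcon
      push Not at hcon
      have h1 : Q * (r : ℝ) ^ 2 ≤ ((1 + Q * i : ℕ) : ℝ) := by
        have : Q * r ^ 2 ≤ 1 + Q * i := (Nat.mul_le_mul_left Q hcon).trans (by omega)
        exact_mod_cast this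
      have h3 : (h : ℝ) / 64 * (Q * (r : ℝ) ^ 2) ^ 6 ≤ (h : ℝ) / 64 * (((1 + Q * i : ℕ) : ℝ)) ^ 6 := by
        gcongr
      have h4 : (x : ℝ) ≤ N := by exact_mod_cast hxN
      linarith only [h3, h4, hr1, hxlow']
    have hJr := hJfr i hir
    have hbadij : ¬ GoodS Q W {a, b, c} (i, j) := by
      intro hgood
      apply hxbad
      have hj0 : 0 < Q * j := by
        rcases Nat.eq_zero_or_pos j with h0 | h0
        · exfalso
          have hc1 := hgood.1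
          simp only [h0, Nat.mul_zero] at hc1
          rw [Nat.coprime_zero_right] at hc1
          have hs5 : 5 * (Q : ℝ) ≤ ((1 + Q * i : ℕ) : ℝ) := (hi0 i hi).1
          rw [hc1] at hs5
          push_cast at hs5
          linarith only [hs5, hQ1]
        · exact Nat.mul_pos hQ h0
      obtain ⟨d, hd1, hd2⟩ := hPP i j hj0 hgood (hqf a (by simp) i j hi hjJ)
        (hqf b (by simp) i j hi hjJ) (hqf c (by simp) i j hi hjJ)
      refine ⟨d, ?_, ?_, hd2⟩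
      · have : (x : ℤ) ≤ ((h * d : ℕ) : ℤ) := by rw [hd1]; exact hPu.le
        exact_mod_cast this
      · -- the length
        have h1 := hstep i j j' hi hjj hjJ hjJ'
        have h2 : (((h * d : ℕ) : ℤ) : ℝ) = (FZ h a b c (1 + Q * i) (Q * j) : ℝ) := by rw [hd1]
        rw [Int.cast_natCast] at h2
        have h3 : (FZ h a b c (1 + Q * i) (Q * j') : ℝ) ≤ x := by exact_mod_cast hPl
        have h4 : ((h * d : ℕ) : ℝ) - x ≤
            h * S * ((1 + Q * i : ℕ) : ℝ) ^ 4 * (Q ^ 2 * (2 * Jf Q i)) := by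
          rw [h2]; linarith only [h1, h3]
        have h5' := hJf2 i
        set s : ℝ := ((1 + Q * i : ℕ) : ℝ) with hsdef
        have hs0 : 0 ≤ s := by rw [hsdef]; positivity
        obtain ⟨k1, k2, k3⟩ := hsq s hTs
        have h5 : (Jf Q i : ℝ) ≤ 6 * √s := h5'.trans k2
        have h7 : (h : ℝ) * S * s ^ 4 * (Q ^ 2 * (2 * Jf Q i)) ≤
            h * (S + 1) * s ^ 4 * (Q ^ 2 * (2 * (6 * √s))) := by
          have : S ≤ S + 1 := by linarith only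
          gcongr
        have h8 : (h : ℝ) * (S + 1) * s ^ 4 * (Q ^ 2 * (2 * (6 * √s))) =
            12 * h * (S + 1) * Q ^ 2 * (√s) ^ 9 := by
          have h9 : s ^ 4 = (√s) ^ 8 := by
            have : (√s) ^ 8 = ((√s) ^ 2) ^ 4 := by ring
            rw [this, Real.sq_sqrt hs0]
          rw [h9]; ring
        set w : ℝ := (x : ℝ) ^ (1 / 12 : ℝ) with hw
        have hx0' : (0 : ℝ) ≤ x := Nat.cast_nonneg _
        have hw0 : 0 ≤ w := Real.rpow_nonneg hx0' _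
        have hw12 : w ^ 12 = x := by
          rw [hw, ← Real.rpow_natCast, ← Real.rpow_mul hx0']
          norm_num
        have hw9 : w ^ 9 = (x : ℝ) ^ (3 / 4 : ℝ) := by
          rw [hw, ← Real.rpow_natCast, ← Real.rpow_mul hx0']
          norm_num
        have h9 : (√s) ^ 12 ≤ (2 * w) ^ 12 := by
          have h10 : (√s) ^ 12 = s ^ 6 := by
            have : (√s) ^ 12 = ((√s) ^ 2) ^ 6 := by ring
            rw [this, Real.sq_sqrt hs0]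
          rw [h10, mul_pow, hw12]
          have h11 : s ^ 6 ≤ h * s ^ 6 := le_mul_of_one_le_left (by positivity) hh1
          have h12 : (2 : ℝ) ^ 12 = 4096 := by norm_num
          rw [h12]
          linarith only [hxlow', h11, hx0']
        have h10 : √s ≤ 2 * w := le_of_pow_le_pow_left₀ (by norm_num) (by positivity) h9
        have h11 : (√s) ^ 9 ≤ (2 * w) ^ 9 := pow_le_pow_left₀ (Real.sqrt_nonneg _) h10 9
        have h12 : 12 * h * (S + 1) * Q ^ 2 * (√s) ^ 9 ≤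
            12 * h * (S + 1) * Q ^ 2 * (2 * w) ^ 9 := mul_le_mul_of_nonneg_left h11 (by positivity)
        have h13 : 12 * h * (S + 1) * Q ^ 2 * (2 * w) ^ 9 =
            (6144 * h * (S + 1) * Q ^ 2) * (x : ℝ) ^ (3 / 4 : ℝ) := by
          rw [← hw9]; ring
        linarith only [h4, h7, h8, h12, h13]
    have hijR : (i, j) ∈ Bad := by
      rw [hBad, Finset.mem_filter, hR, mem_Box]
      exact ⟨⟨hir, hjJ.trans hJr⟩, hbadij⟩
    rcases hjj with rfl | rfl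
    · refine Finset.mem_union_left _ (Finset.mem_biUnion.2 ⟨(i, j), ?_, ?_⟩)
      · rw [hBad1, Finset.mem_filter]
        exact ⟨hijR, hi, hjJ'⟩
      · rw [hJ1, Finset.mem_Ico]
        simp only
        constructor
        · omega
        · omega
    · refine Finset.mem_union_right _ (Finset.mem_biUnion.2 ⟨(i, j' + 1), ?_, ?_⟩)
      · rw [hBad2, Finset.mem_filter]
        exact ⟨hijR, hi, hjJ, by simp⟩
      · rw [hJ2, Finset.mem_Ico]
        simp only [Nat.add_sub_cancel]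
        constructor
        · omega
        · omega
  -- counting
  have hDr : ∀ i, i0 ≤ i → i < r ^ 2 → (h : ℝ) * S * ((1 + Q * i : ℕ) : ℝ) ^ 4 *
      (Q ^ 2 * (2 * Jf Q i)) ≤ 10 * h * S * Q ^ 6 * (r : ℝ) ^ 9 := by
    intro i _ hir
    have h1 := hsS i hir
    have h2 : (Jf Q i : ℝ) ≤ 5 * r := by
      have := hJfr i hir
      exact_mod_cast this
    calc (h : ℝ) * S * ((1 + Q * i : ℕ) : ℝ) ^ 4 * (Q ^ 2 * (2 * Jf Q i)) ≤
        h * S * (Q * (r : ℝ) ^ 2) ^ 4 * (Q ^ 2 * (2 * (5 * r))) := by gcongr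
      _ = 10 * h * S * Q ^ 6 * (r : ℝ) ^ 9 := by ring
  have hcb : ∀ (B : Finset (ℕ × ℕ)) (J : ℕ × ℕ → Finset ℕ),
      (∀ x ∈ B, ((J x).card : ℝ) ≤ 10 * h * S * Q ^ 6 * (r : ℝ) ^ 9) →
      ((B.biUnion J).card : ℝ) ≤ B.card * (10 * h * S * Q ^ 6 * (r : ℝ) ^ 9) := by
    intro B J hJ
    have h1 : ((B.biUnion J).card : ℝ) ≤ ∑ x ∈ B, ((J x).card : ℝ) := by
      exact_mod_cast (Finset.card_biUnion_le : (B.biUnion J).card ≤ ∑ x ∈ B, (J x).card)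
    refine h1.trans ?_
    rw [← nsmul_eq_mul]
    exact Finset.sum_le_card_nsmul _ _ _ hJ
  have hc1 := hcb Bad1 J1 (by
    intro x hx
    obtain ⟨hx1, hx2, hx3⟩ := Finset.mem_filter.1 hx
    have hxr : x.1 < r ^ 2 := (mem_Box.1 (Finset.mem_filter.1 hx1).1).1
    refine card_toNat _ _ (by positivity) ?_
    exact (hstep x.1 x.2 (x.2 + 1) hx2 (Or.inl rfl) (by omega) hx3).trans (hDr x.1 hx2 hxr))
  have hc2 := hcb Bad2 J2 (by
    intro x hx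
    obtain ⟨hx1, hx2, hx3, hx4⟩ := Finset.mem_filter.1 hx
    have hxr : x.1 < r ^ 2 := (mem_Box.1 (Finset.mem_filter.1 hx1).1).1
    refine card_toNat _ _ (by positivity) ?_
    exact (hstep x.1 x.2 (x.2 - 1) hx2 (Or.inr (by omega)) hx3 (by omega)).trans
      (hDr x.1 hx2 hxr))
  have hfin : ∀ B : Finset (ℕ × ℕ), (B.card : ℝ) ≤ 41 * (r : ℝ) ^ 3 / W →
      (B.card : ℝ) * (10 * h * S * Q ^ 6 * (r : ℝ) ^ 9) ≤ δ / 4 * N := by
    intro B hB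
    have h1 : (B.card : ℝ) * (10 * h * S * Q ^ 6 * (r : ℝ) ^ 9) ≤
        (41 * (r : ℝ) ^ 3 / W) * (10 * h * S * Q ^ 6 * (r : ℝ) ^ 9) :=
      mul_le_mul_of_nonneg_right hB (by positivity)
    have h2 : (41 * (r : ℝ) ^ 3 / W) * (10 * h * S * Q ^ 6 * (r : ℝ) ^ 9) =
        410 * S * (h * (Q * (r : ℝ) ^ 2) ^ 6) / W := by ring
    have h4 : 410 * S * (h * (Q * (r : ℝ) ^ 2) ^ 6) / W ≤ 410 * S * (262144 * N) / W := by gcongr
    have h5 : 410 * S * (262144 * (N : ℝ)) / W ≤ δ / 4 * N := by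
      rw [div_le_iff₀ hW']
      rw [div_le_iff₀ hδ] at hWδ
      have h6 := mul_le_mul_of_nonneg_right hWδ (Nat.cast_nonneg (α := ℝ) N)
      linarith only [h6]
    rw [h2] at h1
    linarith only [h1, h4, h5]
  have hf1 := hfin Bad1 hB1card
  have hf2 := hfin Bad2 hB2card
  have hx0N : (x0 : ℝ) ≤ δ / 2 * N := by
    rw [div_le_iff₀ hδ] at hN2'
    linarith only [hN2']
  have hcard1 := Finset.card_le_card hsub
  have hcard2 := Finset.card_union_le (range x0) (Bad1.biUnion J1 ∪ Bad2.biUnion J2)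
  have hcard3' := Finset.card_union_le (Bad1.biUnion J1) (Bad2.biUnion J2)
  rw [Finset.card_range] at hcard2
  have hcard4 := hcard1.trans (hcard2.trans (Nat.add_le_add_left hcard3' x0))
  refine (Nat.cast_le.2 hcard4).trans ?_
  push_cast
  linarith only [hf1, hf2, hc1, hc2, hx0N]


open Classical in
theorem main {e1 e2 e3 : ℤ} (h12 : e1 ≠ e2) (h13 : e1 ≠ e3) (h23 : e2 ≠ e3)
    {h g : ℕ} (hh : Squarefree h)
    (hhg : h * g ^ 2 = ((e1 - e2) * (e2 - e3) * (e3 - e1) *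
      ((e1 - e2) ^ 2 + (e1 - e2) * (e2 - e3) + (e2 - e3) ^ 2)).natAbs)
    {M : ℕ} (hM : 0 < M) {δ : ℝ} (hδ : 0 < δ) :
    ∃ C : ℝ, 0 < C ∧ ∀ᶠ N : ℕ in atTop,
      (((Finset.Icc 1 N).filter fun x : ℕ => ¬ ∃ d : ℕ, x ≤ h * d ∧
        ((h * d : ℕ) : ℝ) ≤ x + C * (x : ℝ) ^ (3 / 4 : ℝ) ∧ Squarefree (h * d) ∧ d ≡ 1 [MOD M] ∧
        ∃ P R : Pt ((e1 : ℚ) * ((((e1 - e2) * (e2 - e3) * (e3 - e1)).sign * (h * d : ℕ) : ℤ) : ℚ))
          ((e2 : ℚ) * ((((e1 - e2) * (e2 - e3) * (e3 - e1)).sign * (h * d : ℕ) : ℤ) : ℚ))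
          ((e3 : ℚ) * ((((e1 - e2) * (e2 - e3) * (e3 - e1)).sign * (h * d : ℕ) : ℤ) : ℚ)),
          ∀ m n : ℤ, m • P + n • R = 0 → m = 0 ∧ n = 0).card : ℝ) ≤ δ * N := by
  set α : ℤ := e1 - e2 with hα
  set β : ℤ := e2 - e3 with hβ
  set γ : ℤ := e3 - e1 with hγ
  have hα0 : α ≠ 0 := sub_ne_zero.2 h12
  have hβ0 : β ≠ 0 := sub_ne_zero.2 h23
  have hγ0 : γ ≠ 0 := sub_ne_zero.2 h13.symm
  have hsum : γ = -α - β := by rw [hα, hβ, hγ]; ring
  set q : ℤ := α ^ 2 + α * β + β ^ 2 with hq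
  have hqpos : 0 < q := by
    have h1 : 0 < α ^ 2 := by positivity
    have h2 : 0 ≤ (α + 2 * β) ^ 2 := sq_nonneg _
    nlinarith
  set n : ℤ := α * β * γ with hn
  have hn0 : n ≠ 0 := mul_ne_zero (mul_ne_zero hα0 hβ0) hγ0
  have hnq0 : n * q ≠ 0 := mul_ne_zero hn0 hqpos.ne'
  -- signed squarefree part
  set hs : ℤ := n.sign * h with hhs
  have hg0 : g ≠ 0 := by
    rintro rfl
    rw [zero_pow two_ne_zero, mul_zero] at hhg
    exact hnq0 (Int.natAbs_eq_zero.1 hhg.symm)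
  have hh0 : h ≠ 0 := by
    rintro rfl
    rw [zero_mul] at hhg
    exact hnq0 (Int.natAbs_eq_zero.1 hhg.symm)
  have hhpos : 1 ≤ h := Nat.pos_of_ne_zero hh0
  have hsignne : n.sign ≠ 0 := by
    rw [Ne, Int.sign_eq_zero_iff_zero]; exact hn0
  have hs0 : hs ≠ 0 := mul_ne_zero hsignne (by exact_mod_cast hh0)
  have hsabs : (h : ℤ) = |hs| := by
    rw [hhs, abs_mul, Int.abs_sign_of_ne_zero hn0, one_mul, Nat.abs_cast]
  have hssign : hs.sign = n.sign := by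
    rw [hhs, Int.sign_mul, Int.sign_natCast_of_ne_zero hh0, mul_one, Int.sign_sign]
  have hhsg : hs * (g : ℤ) ^ 2 = n * q := by
    have h1 : ((h * g ^ 2 : ℕ) : ℤ) = |n * q| := by
      rw [hhg]; exact Int.natCast_natAbs _
    push_cast at h1
    rw [hhs, mul_assoc, h1, abs_mul, abs_of_pos hqpos, ← mul_assoc, Int.sign_mul_abs]
  -- the coefficients
  obtain ⟨a, ha⟩ : ∃ a : ℤ, a = α ^ 2 * β * γ ^ 3 := ⟨_, rfl⟩
  obtain ⟨b, hb⟩ : ∃ b : ℤ, b = α ^ 3 * β ^ 2 * γ := ⟨_, rfl⟩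
  obtain ⟨c, hc⟩ : ∃ c : ℤ, c = α * β ^ 3 * γ ^ 2 := ⟨_, rfl⟩
  have ha0 : a ≠ 0 := by rw [ha]; positivity
  have hb0 : b ≠ 0 := by rw [hb]; positivity
  have hc0 : c ≠ 0 := by rw [hc]; positivity
  have hab : a - b = α * (n * q) := by rw [ha, hb, hn, hq, hsum]; ring
  have hbc : b - c = β * (n * q) := by rw [hb, hc, hn, hq, hsum]; ring
  have hca : c - a = γ * (n * q) := by rw [ha, hc, hn, hq, hsum]; ring
  have hab0 : a - b ≠ 0 := by rw [hab]; exact mul_ne_zero hα0 hnq0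
  have hbc0 : b - c ≠ 0 := by rw [hbc]; exact mul_ne_zero hβ0 hnq0
  have hca0 : c - a ≠ 0 := by rw [hca]; exact mul_ne_zero hγ0 hnq0
  have hσ : a + b + c ≠ 0 := by
    have e : a + b + c = n * (α ^ 3 + 3 * α ^ 2 * β - β ^ 3) := by
      rw [ha, hb, hc, hn, hsum]; ring
    rw [e]
    refine mul_ne_zero hn0 fun h0 => ?_
    exact hα0 (cubic_ne _ α β le_rfl h0).1
  obtain ⟨Z, z1, z2, z3, z4, _, _, _⟩ := ex_bound (hs * α * β * γ).natAbs (a - b).natAbs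
    (b - c).natAbs (c - a).natAbs 0 0
  obtain ⟨W, Q, hZW, hMQ, hQW', hmain⟩ := sieve_main hhpos ha0 hb0 hc0 hσ Z hM hδ
  have hbig : ∀ {z : ℤ} {p : ℕ}, z ≠ 0 → z.natAbs ≤ Z → W < p → ¬ (p : ℤ) ∣ z := by
    intro z p hz hzW hpW hd
    have h1 : p ∣ z.natAbs := Int.natCast_dvd.1 hd
    have h2 := Nat.le_of_dvd (Int.natAbs_pos.2 hz) h1
    exact absurd (lt_of_lt_of_le hpW (h2.trans (hzW.trans hZW))) (lt_irrefl _)
  have hWhs : ∀ p : ℕ, p.Prime → W < p → ¬ (p : ℤ) ∣ hs * α * β * γ ∧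
      ¬ (p : ℤ) ∣ a - b ∧ ¬ (p : ℤ) ∣ b - c ∧ ¬ (p : ℤ) ∣ c - a := by
    intro p _ hpW
    exact ⟨hbig (mul_ne_zero (mul_ne_zero (mul_ne_zero hs0 hα0) hβ0) hγ0) z1 hpW,
      hbig hab0 z2 hpW, hbig hbc0 z3 hpW, hbig hca0 z4 hpW⟩
  refine hmain _ fun i j hj0 hgood hA hB hC => ?_
  obtain ⟨d, hd1, hd2, hd3, hd4⟩ := arith (hs := hs) (g := (g : ℤ)) h12 h13 h23
    (by exact_mod_cast hg0) hs0 hhsg ha hb hc hh hsabs (Q := Q) (W := W) (M := M) hMQ hQW' hWhs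
    hj0 hgood hA hB hC
  rw [hssign] at hd4
  exact ⟨d, hd1, hd2, hd3, hd4⟩

end Pool.Agent.TH562.R2
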