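import Mathlib
import Pool.Agent.TH562.R2.Final

set_option autoImplicit false

namespace Pool.Agent.TH562.R2.Tw

/-- the curve `y² = (x - e₁ t) (x - e₂ t) (x - e₃ t)`, the quadratic twist by `t` of
`y² = (x - e₁) (x - e₂) (x - e₃)` -/
def twist (e₁ e₂ e₃ t : ℤ) : WeierstrassCurve ℚ where
  a₁ := 0
  a₂ := ((-(e₁ + e₂ + e₃) * t : ℤ) : ℚ)
  a₃ := 0
  a₄ := (((e₁ * e₂ + e₁ * e₃ + e₂ * e₃) * t ^ 2 : ℤ) : ℚ)
  a₆ := ((-(e₁ * e₂ * e₃) * t ^ 3 : ℤ) : ℚ)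

/-- the group of rational points contains two independent points -/
def RankAtLeastTwo (W : WeierstrassCurve ℚ) : Prop :=
  ∃ P R : W.toAffine.Point, ∀ m n : ℤ, m • P + n • R = 0 → m = 0 ∧ n = 0

theorem crv_eq (e₁ e₂ e₃ t : ℤ) :
    Pool.Agent.H918R3.crv ((e₁ : ℚ) * (t : ℚ)) ((e₂ : ℚ) * (t : ℚ)) ((e₃ : ℚ) * (t : ℚ)) =
      twist e₁ e₂ e₃ t := by
  unfold Pool.Agent.H918R3.crv twist
  congr 1 <;> push_cast <;> ring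

theorem twist_swap (e₁ e₂ e₃ t : ℤ) : twist e₂ e₁ e₃ t = twist e₁ e₂ e₃ t := by
  unfold twist
  congr 1 <;> push_cast <;> ring

open Classical in
theorem one_sign {e₁ e₂ e₃ : ℤ} (h12 : e₁ ≠ e₂) (h13 : e₁ ≠ e₃) (h23 : e₂ ≠ e₃)
    {h g : ℕ} (hh : Squarefree h)
    (hhg : h * g ^ 2 = ((e₁ - e₂) * (e₂ - e₃) * (e₃ - e₁) *
      ((e₁ - e₂) ^ 2 + (e₁ - e₂) * (e₂ - e₃) + (e₂ - e₃) ^ 2)).natAbs)
    {M : ℕ} (hM : 0 < M) {δ : ℝ} (hδ : 0 < δ) {ε : ℤ} (hε : ε = 1 ∨ ε = -1) :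
    ∃ C : ℝ, 0 < C ∧ ∀ᶠ N : ℕ in Filter.atTop,
      (((Finset.Icc 1 N).filter fun x : ℕ => ¬ ∃ d : ℕ, x ≤ h * d ∧
        ((h * d : ℕ) : ℝ) ≤ x + C * (x : ℝ) ^ (3 / 4 : ℝ) ∧ Squarefree (h * d) ∧ d ≡ 1 [MOD M] ∧
        RankAtLeastTwo (twist e₁ e₂ e₃ (ε * (h * d : ℕ)))).card : ℝ) ≤ δ * N := by
  have hn : (e₁ - e₂) * (e₂ - e₃) * (e₃ - e₁) ≠ 0 :=
    mul_ne_zero (mul_ne_zero (sub_ne_zero.2 h12) (sub_ne_zero.2 h23)) (sub_ne_zero.2 h13.symm)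
  have hsg : ((e₁ - e₂) * (e₂ - e₃) * (e₃ - e₁)).sign = ε ∨
      ((e₂ - e₁) * (e₁ - e₃) * (e₃ - e₂)).sign = ε := by
    have h1 : (e₂ - e₁) * (e₁ - e₃) * (e₃ - e₂) = -((e₁ - e₂) * (e₂ - e₃) * (e₃ - e₁)) := by ring
    rw [h1, Int.sign_neg]
    rcases lt_or_gt_of_ne hn with h | h
    · rw [Int.sign_eq_neg_one_of_neg h]
      rcases hε with rfl | rfl
      · exact Or.inr rfl
      · exact Or.inl rfl
    · rw [Int.sign_eq_one_of_pos h]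
      rcases hε with rfl | rfl
      · exact Or.inl rfl
      · exact Or.inr rfl
  rcases hsg with hsg | hsg
  · obtain ⟨C, hC, hN⟩ := Pool.Agent.TH562.R2.main h12 h13 h23 hh hhg hM hδ
    refine ⟨C, hC, ?_⟩
    filter_upwards [hN] with N hN
    refine le_trans (Nat.cast_le.2 (Finset.card_le_card ?_)) hN
    intro x hx
    obtain ⟨hx1, hx2⟩ := Finset.mem_filter.1 hx
    refine Finset.mem_filter.2 ⟨hx1, fun hex => hx2 ?_⟩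
    obtain ⟨d, hd1, hd2, hd3, hd4, hd5⟩ := hex
    refine ⟨d, hd1, hd2, hd3, hd4, ?_⟩
    have h5 : RankAtLeastTwo (Pool.Agent.H918R3.crv _ _ _) := hd5
    rw [crv_eq, hsg] at h5
    exact h5
  · have hhg' : h * g ^ 2 = ((e₂ - e₁) * (e₁ - e₃) * (e₃ - e₂) *
        ((e₂ - e₁) ^ 2 + (e₂ - e₁) * (e₁ - e₃) + (e₁ - e₃) ^ 2)).natAbs := by
      rw [hhg, ← Int.natAbs_neg]
      congr 1
      ring
    obtain ⟨C, hC, hN⟩ := Pool.Agent.TH562.R2.main h12.symm h23 h13 hh hhg' hM hδ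
    refine ⟨C, hC, ?_⟩
    filter_upwards [hN] with N hN
    refine le_trans (Nat.cast_le.2 (Finset.card_le_card ?_)) hN
    intro x hx
    obtain ⟨hx1, hx2⟩ := Finset.mem_filter.1 hx
    refine Finset.mem_filter.2 ⟨hx1, fun hex => hx2 ?_⟩
    obtain ⟨d, hd1, hd2, hd3, hd4, hd5⟩ := hex
    refine ⟨d, hd1, hd2, hd3, hd4, ?_⟩
    have h5 : RankAtLeastTwo (Pool.Agent.H918R3.crv _ _ _) := hd5
    rw [crv_eq, hsg, twist_swap] at h5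
    exact h5

open Classical in
theorem main_tw (e₁ e₂ e₃ : ℤ) (h12 : e₁ ≠ e₂) (h13 : e₁ ≠ e₃) (h23 : e₂ ≠ e₃) :
    ∃ h g : ℕ, Squarefree h ∧
      h * g ^ 2 = ((e₁ - e₂) * (e₂ - e₃) * (e₃ - e₁) *
        ((e₁ - e₂) ^ 2 + (e₁ - e₂) * (e₂ - e₃) + (e₂ - e₃) ^ 2)).natAbs ∧
      ∀ M : ℕ, 0 < M → ∀ δ : ℝ, 0 < δ → ∃ C : ℝ, 0 < C ∧ ∀ᶠ N : ℕ in Filter.atTop,
        (((Finset.Icc 1 N).filter fun x : ℕ => ¬ ∀ ε ∈ ({1, -1} : Set ℤ), ∃ d : ℕ,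
          (x : ℝ) ≤ (h * d : ℕ) ∧ ((h * d : ℕ) : ℝ) ≤ x + C * (x : ℝ) ^ ((3 : ℝ) / 4) ∧
          Squarefree (h * d) ∧ d ≡ 1 [MOD M] ∧
          RankAtLeastTwo (twist e₁ e₂ e₃ (ε * (h * d : ℕ)))).card : ℝ) ≤ δ * N := by
  obtain ⟨h, g, hhg, hh⟩ := Nat.sq_mul_squarefree ((e₁ - e₂) * (e₂ - e₃) * (e₃ - e₁) *
        ((e₁ - e₂) ^ 2 + (e₁ - e₂) * (e₂ - e₃) + (e₂ - e₃) ^ 2)).natAbs
  have hhg' : h * g ^ 2 = ((e₁ - e₂) * (e₂ - e₃) * (e₃ - e₁) *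
        ((e₁ - e₂) ^ 2 + (e₁ - e₂) * (e₂ - e₃) + (e₂ - e₃) ^ 2)).natAbs := by
    rw [← hhg]; ring
  refine ⟨h, g, hh, hhg', fun M hM δ hδ => ?_⟩
  obtain ⟨C1, hC1, hN1⟩ := one_sign h12 h13 h23 hh hhg' hM (δ := δ / 2) (by positivity)
    (ε := 1) (Or.inl rfl)
  obtain ⟨C2, hC2, hN2⟩ := one_sign h12 h13 h23 hh hhg' hM (δ := δ / 2) (by positivity)
    (ε := -1) (Or.inr rfl)
  refine ⟨C1 + C2, by positivity, ?_⟩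
  filter_upwards [hN1, hN2] with N g1 g2
  set T : ℝ → ℤ → Finset ℕ := fun C ε => (Finset.Icc 1 N).filter fun x : ℕ => ¬ ∃ d : ℕ,
        x ≤ h * d ∧ ((h * d : ℕ) : ℝ) ≤ x + C * (x : ℝ) ^ (3 / 4 : ℝ) ∧ Squarefree (h * d) ∧
        d ≡ 1 [MOD M] ∧ RankAtLeastTwo (twist e₁ e₂ e₃ (ε * (h * d : ℕ))) with hT
  have hconv : ∀ {C : ℝ} {ε : ℤ} {x : ℕ}, C ≤ C1 + C2 → (∃ d : ℕ,
        x ≤ h * d ∧ ((h * d : ℕ) : ℝ) ≤ x + C * (x : ℝ) ^ (3 / 4 : ℝ) ∧ Squarefree (h * d) ∧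
        d ≡ 1 [MOD M] ∧ RankAtLeastTwo (twist e₁ e₂ e₃ (ε * (h * d : ℕ)))) →
      ∃ d : ℕ, (x : ℝ) ≤ (h * d : ℕ) ∧
        ((h * d : ℕ) : ℝ) ≤ x + (C1 + C2) * (x : ℝ) ^ ((3 : ℝ) / 4) ∧
          Squarefree (h * d) ∧ d ≡ 1 [MOD M] ∧
          RankAtLeastTwo (twist e₁ e₂ e₃ (ε * (h * d : ℕ))) := by
    rintro C ε x hC ⟨d, hd1, hd2, hd3, hd4, hd5⟩
    refine ⟨d, by exact_mod_cast hd1, hd2.trans ?_, hd3, hd4, hd5⟩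
    have : C * (x : ℝ) ^ (3 / 4 : ℝ) ≤ (C1 + C2) * (x : ℝ) ^ ((3 : ℝ) / 4) :=
      mul_le_mul_of_nonneg_right hC (by positivity)
    linarith
  have hsub : ((Finset.Icc 1 N).filter fun x : ℕ => ¬ ∀ ε ∈ ({1, -1} : Set ℤ), ∃ d : ℕ,
          (x : ℝ) ≤ (h * d : ℕ) ∧ ((h * d : ℕ) : ℝ) ≤ x + (C1 + C2) * (x : ℝ) ^ ((3 : ℝ) / 4) ∧
          Squarefree (h * d) ∧ d ≡ 1 [MOD M] ∧
          RankAtLeastTwo (twist e₁ e₂ e₃ (ε * (h * d : ℕ)))) ⊆ T C1 1 ∪ T C2 (-1) := by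
    intro x hx
    obtain ⟨hx1, hx2⟩ := Finset.mem_filter.1 hx
    by_contra hcon
    rw [Finset.mem_union] at hcon
    push Not at hcon
    obtain ⟨n1, n2⟩ := hcon
    apply hx2
    intro ε hε
    simp only [Set.mem_insert_iff, Set.mem_singleton_iff] at hε
    rcases hε with rfl | rfl
    · refine hconv (by linarith : C1 ≤ C1 + C2) ?_
      by_contra h
      exact n1 (Finset.mem_filter.2 ⟨hx1, h⟩)
    · refine hconv (by linarith : C2 ≤ C1 + C2) ?_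
      by_contra h
      exact n2 (Finset.mem_filter.2 ⟨hx1, h⟩)
  have hcard := (Finset.card_le_card hsub).trans (Finset.card_union_le _ _)
  refine (Nat.cast_le.2 hcard).trans ?_
  push_cast
  linarith

end Pool.Agent.TH562.R2.Tw
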